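import Pool.Agent.Helper233.CI.Iter
set_option autoImplicit false
open Metric Set Filter Topology Complex
namespace Pool.Agent.Helper233.CI

section
set_option linter.unusedSectionVars false
variable {B : Type*} [NormedCommRing B] [NormedAlgebra ℂ B] [CompleteSpace B] (Q : B)

/-- `Θ(w) = (1 - wQ)⁻¹` -/
noncomputable def Th (w : ℂ) : B := Ring.inverse (1 - w • Q)

variable {Q}

lemma Th_diff (hu : ∀ w : ℂ, IsUnit (1 - w • Q)) : Differentiable ℂ (Th Q) := by
  intro w
  have h1 : DifferentiableAt ℂ (Ring.inverse : B → B) (1 - w • Q) := differentiableAt_inverse (hu w)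
  have h2 : DifferentiableAt ℂ (fun w : ℂ => 1 - w • Q) w := by fun_prop
  exact DifferentiableAt.comp w h1 h2

lemma Th_mul (hu : ∀ w : ℂ, IsUnit (1 - w • Q)) (w : ℂ) : (1 - w • Q) * Th Q w = 1 :=
  Ring.mul_inverse_cancel _ (hu w)

/-- maximum over the disc -/
noncomputable def mx (Q : B) (R : ℝ) : ℝ := max 1 (sSup ((fun w => ‖Th Q w‖) '' closedBall (0:ℂ) R))

lemma mx_one (R : ℝ) : 1 ≤ mx Q R := le_max_left _ _

lemma le_mx (hu : ∀ w : ℂ, IsUnit (1 - w • Q)) {R : ℝ} {w : ℂ} (hw : ‖w‖ ≤ R) : ‖Th Q w‖ ≤ mx Q R := by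
  refine le_trans ?_ (le_max_right _ _)
  apply le_csSup
  · exact ((isCompact_closedBall (0:ℂ) R).image (Th_diff hu).continuous.norm).bddAbove
  · exact ⟨w, by simpa using hw, rfl⟩

lemma mx_le {R c : ℝ} (hR : 0 ≤ R) (hc : 1 ≤ c) (h : ∀ w : ℂ, ‖w‖ ≤ R → ‖Th Q w‖ ≤ c) : mx Q R ≤ c := by
  apply max_le hc
  apply csSup_le
  · exact ⟨_, 0, by simpa using hR, rfl⟩
  · rintro _ ⟨w, hw, rfl⟩
    exact h w (by simpa using hw)

theorem growth (hu : ∀ w : ℂ, IsUnit (1 - w • Q)) {C0 : ℝ}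
    (h1 : ∀ w : ℂ, 0 < w.re → ‖Th Q w‖ ≤ C0 * (1 + ‖w‖) / w.re) {p : ℕ} (hp : 1 ≤ p)
    (h2 : ∀ ε > (0:ℝ), ∃ R0 ≥ (1:ℝ), ∀ R ≥ R0, ∀ R', R < R' → R' ≤ 2 * R → ∀ y : ℂ, ‖y‖ = R →
      y.re ≤ -(R' - R) / 16 → ∀ M, 1 ≤ M → (∀ w : ℂ, ‖w‖ ≤ R' → ‖Th Q w‖ ≤ M) →
      ‖Th Q y‖ ≤ √M * Real.exp (ε * R * (R / (R' - R)) ^ p)) :
    ∀ ε > (0:ℝ), ∃ R0 ≥ (1:ℝ), ∀ R ≥ R0, mx Q R ≤ Real.exp (ε * R) := by
  have hC0 : 0 ≤ C0 := by
    have := (norm_nonneg _).trans (h1 1 (by simp))
    simp at this; linarith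
  intro ε hε
  set K : ℝ := 3 * (4 * (p + 1)) ^ p * 2 ^ (p + 1) with hK
  have hK0 : 0 < K := by rw [hK]; positivity
  set ε' : ℝ := ε / K with hε'
  have hε'0 : 0 < ε' := by positivity
  obtain ⟨R0, hR0, hR0'⟩ := h2 ε' hε'0
  set C1 : ℝ := 6 * √(48 * C0 + 1) with hC1
  refine ⟨max R0 (C1 / ε'), le_max_of_le_left hR0, fun R hR => ?_⟩
  have hRR0 : R0 ≤ R := (le_max_left _ _).trans hR
  have hRC : C1 / ε' ≤ R := (le_max_right _ _).trans hR
  have hR1 : 1 ≤ R := hR0.trans hRR0
  have hRpos : 0 < R := by linarith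
  -- recursion
  have hrec : ∀ t t', R ≤ t → t < t' → t' ≤ 2 * t → mx Q t ≤ √(mx Q t') * Real.exp (ε' * t * (t / (t' - t)) ^ p) := by
    intro t t' ht htt' ht'
    have ht0 : 0 < t := by linarith
    have hδ : 0 < t' - t := by linarith
    have hx1 : 1 ≤ t / (t' - t) := by rw [le_div_iff₀ hδ]; linarith
    have hexp1 : 1 ≤ Real.exp (ε' * t * (t / (t' - t)) ^ p) := Real.one_le_exp (by positivity)
    have hbig : 1 ≤ √(mx Q t') * Real.exp (ε' * t * (t / (t' - t)) ^ p) := by
      have : 1 ≤ √(mx Q t') := Real.one_le_sqrt.2 (mx_one _)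
      nlinarith
    have hsph : ∀ y : ℂ, ‖y‖ = t → ‖Th Q y‖ ≤ √(mx Q t') * Real.exp (ε' * t * (t / (t' - t)) ^ p) := by
      intro y hy
      by_cases hcase : y.re ≤ -(t' - t) / 16
      · exact hR0' t (hRR0.trans ht) t' htt' ht' y hy hcase _ (mx_one _) (fun w hw => le_mx hu hw)
      · push Not at hcase
        set τ : ℝ := (t' - t) / 4 with hτ
        have hτ0 : 0 < τ := by positivity
        have hcase' : -(τ / 4) < y.re := by rw [hτ]; linarith
        have hnc : ‖y + (τ:ℂ) - y‖ = τ := by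
          rw [add_sub_cancel_left, Complex.norm_real, Real.norm_of_nonneg hτ0.le]
        have hcn : ‖y + (τ:ℂ)‖ ≤ t + τ := by
          refine (norm_add_le _ _).trans ?_
          rw [hy, Complex.norm_real, Real.norm_of_nonneg hτ0.le]
        have h4 : 4 * τ = t' - t := by rw [hτ]; ring
        have := three_circ (Th_diff hu) (y + (τ:ℂ)) (τ := τ) (M1 := C0 * (1 + t') / (τ / 4)) (M3 := mx Q t') hτ0
          (by
            intro z hz
            have hzn : ‖z‖ ≤ t' := by
              calc ‖z‖ = ‖(z - (y + (τ:ℂ))) + (y + (τ:ℂ))‖ := by rw [sub_add_cancel]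
                _ ≤ τ / 2 + (t + τ) := (norm_add_le _ _).trans (add_le_add hz hcn)
                _ ≤ t' := by linarith
            have hre : τ / 4 < z.re := by
              have h5 := (abs_le.1 (Complex.abs_re_le_norm (z - (y + (τ:ℂ))))).1
              simp only [sub_re, add_re, ofReal_re] at h5
              linarith
            refine (h1 z (by linarith)).trans ?_
            have ht'0 : 0 < t' := by linarith
            have : 0 ≤ C0 * (1 + t') := by positivity
            gcongr)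
          (by
            intro z hz
            apply le_mx hu
            calc ‖z‖ = ‖(z - (y + (τ:ℂ))) + (y + (τ:ℂ))‖ := by rw [sub_add_cancel]
              _ ≤ 3 * τ + (t + τ) := (norm_add_le _ _).trans (add_le_add hz hcn)
              _ ≤ t' := by linarith)
          (z := y) (by rw [norm_sub_rev, hnc])
        refine this.trans ?_
        set x : ℝ := t / (t' - t) with hx
        have hM1 : C0 * (1 + t') / (τ / 4) ≤ (48 * C0 + 1) * x ^ 2 := by
          have e1 : C0 * (1 + t') / (τ / 4) = 16 * C0 * ((1 + t') / (t' - t)) := by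
            rw [hτ]; field_simp; ring
          have e2 : (1 + t') / (t' - t) ≤ 3 * x := by
            rw [hx, ← mul_div_assoc]
            gcongr; linarith
          rw [e1]
          have e3 : x ≤ x ^ 2 := by nlinarith
          have e4 : 16 * C0 * ((1 + t') / (t' - t)) ≤ 16 * C0 * (3 * x ^ 2) := by
            apply mul_le_mul_of_nonneg_left _ (by positivity)
            linarith
          nlinarith [sq_nonneg x]
        calc 6 * √(C0 * (1 + t') / (τ / 4) * mx Q t') ≤ 6 * √((48 * C0 + 1) * x ^ 2 * mx Q t') := by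
              gcongr
              linarith [mx_one (Q := Q) t']
          _ = √(mx Q t') * (C1 * x) := by
              rw [Real.sqrt_mul (by positivity), Real.sqrt_mul (by positivity), Real.sqrt_sq (by positivity), hC1]
              ring
          _ ≤ √(mx Q t') * Real.exp (ε' * t * x ^ p) := by
              gcongr
              have g1 : C1 ≤ ε' * t := by
                rw [div_le_iff₀ hε'0] at hRC
                nlinarith
              have g2 : x ≤ x ^ p := le_self_pow₀ hx1 (by omega)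
              calc C1 * x ≤ ε' * t * x ^ p := by gcongr
                _ ≤ _ := by linarith [Real.add_one_le_exp (ε' * t * x ^ p)]
    apply mx_le ht0.le hbig
    intro w hw
    have hb := Complex.norm_le_of_forall_mem_frontier_norm_le (U := ball (0:ℂ) t) isBounded_ball
      (Th_diff hu).diffContOnCl (C := √(mx Q t') * Real.exp (ε' * t * (t / (t' - t)) ^ p)) (by
        intro z hz
        rw [frontier_ball _ ht0.ne'] at hz
        exact hsph z (by simpa using hz)) (z := w) (by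
        rw [closure_ball _ ht0.ne']; simpa using hw)
    exact hb
  -- iteration
  have hmono : ∀ t t', t ≤ t' → 0 ≤ t → mx Q t ≤ mx Q t' := fun t t' h h0 =>
    mx_le h0 (mx_one _) (fun w hw => le_mx hu (hw.trans h))
  have hit := iter (Z := fun t => Real.log (mx Q t)) (R := R) (D := ε' * (2 * R) * 2 ^ p)
    (C := Real.log (mx Q (2 * R))) p hRpos
    (by
      intro t ht ht'
      exact Real.log_le_log (by linarith [mx_one (Q := Q) t]) (hmono t _ ht' (by linarith)))
    (by positivity)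
    (by
      intro t t' ht htt' ht'
      have hm1 := mx_one (Q := Q) t
      have hm2 := mx_one (Q := Q) t'
      have hδ : 0 < t' - t := by linarith
      have ht0 : 0 < t := by linarith
      have ht2 : t ≤ 2 * R := by linarith
      have h3 := Real.log_le_log (by linarith) (hrec t t' ht htt' (by linarith))
      rw [Real.log_mul (by positivity) (by positivity), Real.log_exp, Real.log_sqrt (by linarith)] at h3
      have h4 : ε' * t * (t / (t' - t)) ^ p ≤ ε' * (2 * R) * 2 ^ p * (R / (t' - t)) ^ p := by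
        have h5 : (t / (t' - t)) ^ p ≤ (2 * (R / (t' - t))) ^ p := by
          apply pow_le_pow_left₀ (by positivity)
          rw [← mul_div_assoc]
          gcongr
        rw [mul_pow] at h5
        calc ε' * t * (t / (t' - t)) ^ p ≤ ε' * (2 * R) * (2 ^ p * (R / (t' - t)) ^ p) := by
              gcongr
          _ = _ := by ring
      linarith)
  have hfin : Real.log (mx Q R) ≤ ε * R := by
    refine hit.trans (le_of_eq ?_)
    rw [hε', hK]
    field_simp
    ring
  rw [← Real.exp_log (show 0 < mx Q R by linarith [mx_one (Q := Q) R])]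
  exact Real.exp_le_exp.2 hfin

theorem abstract_main (hu : ∀ w : ℂ, IsUnit (1 - w • Q)) {C0 : ℝ}
    (h1 : ∀ w : ℂ, 0 < w.re → ‖Th Q w‖ ≤ C0 * (1 + ‖w‖) / w.re) {p : ℕ} (hp : 1 ≤ p)
    (h2 : ∀ ε > (0:ℝ), ∃ R0 ≥ (1:ℝ), ∀ R ≥ R0, ∀ R', R < R' → R' ≤ 2 * R → ∀ y : ℂ, ‖y‖ = R →
      y.re ≤ -(R' - R) / 16 → ∀ M, 1 ≤ M → (∀ w : ℂ, ‖w‖ ≤ R' → ‖Th Q w‖ ≤ M) →
      ‖Th Q y‖ ≤ √M * Real.exp (ε * R * (R / (R' - R)) ^ p)) :
    Q = 0 := by
  have hgr := growth hu h1 hp h2
  have hC0 : 0 ≤ C0 := by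
    have := (norm_nonneg _).trans (h1 1 (by simp))
    simp at this; linarith
  -- Phragmen-Lindelof
  have hPL : ∀ ε > (0:ℝ), ∀ z : ℂ, 0 ≤ z.re → ‖Complex.exp (-(ε:ℂ) * z) • (z + 1)⁻¹ • Th Q (1 - z)‖ ≤ 2 * C0 := by
    intro ε hε z hz
    have hne : ∀ z : ℂ, 0 ≤ z.re → z + 1 ≠ 0 := by
      intro z hz h
      have := congrArg Complex.re h
      simp at this; linarith
    have hexpn : ∀ z : ℂ, ‖Complex.exp (-(ε:ℂ) * z)‖ = Real.exp (-(ε * z.re)) := by
      intro z
      rw [Complex.norm_exp]; simp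
    have hinv1 : ∀ z : ℂ, 0 ≤ z.re → ‖(z + 1)⁻¹‖ ≤ 1 := by
      intro z hz
      rw [norm_inv]
      apply inv_le_one_of_one_le₀
      have := Complex.re_le_norm (z + 1)
      simp at this; linarith
    have hbd : ∀ z : ℂ, 0 ≤ z.re → ‖Complex.exp (-(ε:ℂ) * z) • (z + 1)⁻¹ • Th Q (1 - z)‖ ≤
        Real.exp (-(ε * z.re)) * mx Q (1 + ‖z‖) := by
      intro z hz
      rw [norm_smul, norm_smul, hexpn]
      have h3 : ‖Th Q (1 - z)‖ ≤ mx Q (1 + ‖z‖) := le_mx hu (by
        refine (norm_sub_le _ _).trans ?_; simp)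
      calc Real.exp (-(ε * z.re)) * (‖(z + 1)⁻¹‖ * ‖Th Q (1 - z)‖) ≤ Real.exp (-(ε * z.re)) * (1 * mx Q (1 + ‖z‖)) := by
            gcongr
            exact hinv1 z hz
        _ = _ := by rw [one_mul]
    refine PhragmenLindelof.right_half_plane_of_tendsto_zero_on_real
      (f := fun z => Complex.exp (-(ε:ℂ) * z) • (z + 1)⁻¹ • Th Q (1 - z)) ?_ ?_ ?_ ?_ hz
    · apply DifferentiableOn.diffContOnCl
      rw [Complex.closure_setOfPred_lt_re]
      intro w hw
      apply DifferentiableAt.differentiableWithinAt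
      have e1 : DifferentiableAt ℂ (fun z : ℂ => Complex.exp (-(ε:ℂ) * z)) w := by fun_prop
      have e2 : DifferentiableAt ℂ (fun z : ℂ => (z + 1)⁻¹) w := by
        exact DifferentiableAt.fun_inv (by fun_prop) (hne w hw)
      have e3 : DifferentiableAt ℂ (fun z : ℂ => Th Q (1 - z)) w :=
        ((Th_diff hu).comp (by fun_prop : Differentiable ℂ (fun z : ℂ => 1 - z))).differentiableAt
      exact e1.smul (e2.smul e3)
    · obtain ⟨R0, hR0, h⟩ := hgr (1/2) (by norm_num)
      refine ⟨1, by norm_num, 1, ?_⟩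
      apply Asymptotics.IsBigO.of_bound 1
      rw [eventually_inf_principal]
      have : ∀ᶠ z : ℂ in Bornology.cobounded ℂ, R0 ≤ ‖z‖ := tendsto_norm_cobounded_atTop.eventually_ge_atTop R0
      filter_upwards [this] with z hz hz'
      have hz'' : 0 ≤ z.re := le_of_lt hz'
      rw [one_mul, Real.norm_of_nonneg (Real.exp_pos _).le, one_mul, Real.rpow_one]
      refine (hbd z hz'').trans ?_
      have h4 := h (1 + ‖z‖) (by linarith [norm_nonneg z])
      calc Real.exp (-(ε * z.re)) * mx Q (1 + ‖z‖) ≤ 1 * Real.exp (1/2 * (1 + ‖z‖)) := by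
            gcongr
            · linarith [mx_one (Q := Q) (1 + ‖z‖)]
            · apply Real.exp_le_one_iff.2
              have : 0 ≤ ε * z.re := by positivity
              linarith
        _ ≤ Real.exp ‖z‖ := by
            rw [one_mul]
            apply Real.exp_le_exp.2
            linarith
    · obtain ⟨R0, hR0, h⟩ := hgr (ε/2) (by positivity)
      have hT : Tendsto (fun x : ℝ => Real.exp (-(ε/2) * x) * Real.exp (ε/2)) atTop (𝓝 0) := by
        have : Tendsto (fun x : ℝ => Real.exp (-(ε/2) * x)) atTop (𝓝 0) := by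
          apply Real.tendsto_exp_atBot.comp
          exact tendsto_id.const_mul_atTop_of_neg (by linarith)
        simpa using this.mul_const (Real.exp (ε/2))
      refine squeeze_zero_norm' ?_ hT
      filter_upwards [eventually_ge_atTop R0] with x hx
      have hx0 : 0 ≤ x := by linarith
      have := hbd (x:ℂ) (by simpa using hx0)
      refine this.trans ?_
      rw [Complex.ofReal_re, Complex.norm_real, Real.norm_of_nonneg hx0]
      have h4 := h (1 + x) (by linarith)
      calc Real.exp (-(ε * x)) * mx Q (1 + x) ≤ Real.exp (-(ε * x)) * Real.exp (ε/2 * (1 + x)) := by gcongr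
        _ = _ := by rw [← Real.exp_add, ← Real.exp_add]; congr 1; ring
    · intro x
      have hn1 : 1 ≤ ‖(x:ℂ) * I + 1‖ := by
        have := Complex.re_le_norm ((x:ℂ) * I + 1)
        simpa using this
      have hn2 : ‖1 - (x:ℂ) * I‖ = ‖(x:ℂ) * I + 1‖ := by
        have : 1 - (x:ℂ) * I = (starRingEnd ℂ) ((x:ℂ) * I + 1) := by
          simp [map_add, map_mul]; ring
        rw [this, RCLike.norm_conj]
      have h3 := h1 (1 - (x:ℂ) * I) (by simp)
      rw [show (1 - (x:ℂ) * I).re = 1 by simp, div_one, hn2] at h3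
      rw [norm_smul, norm_smul, hexpn, show ((x:ℂ) * I).re = 0 by simp, mul_zero, neg_zero, Real.exp_zero, one_mul,
        norm_inv, inv_mul_le_iff₀ (by linarith)]
      nlinarith
  have hall : ∀ w : ℂ, ‖Th Q w‖ ≤ 2 * C0 * (2 + ‖w‖) := by
    intro w
    by_cases hw : 1 ≤ w.re
    · refine (h1 w (by linarith)).trans ?_
      calc C0 * (1 + ‖w‖) / w.re ≤ C0 * (1 + ‖w‖) := div_le_self (by positivity) hw
        _ ≤ _ := by nlinarith [norm_nonneg w]
    · push Not at hw
      set z : ℂ := 1 - w with hz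
      have hz0 : 0 ≤ z.re := by rw [hz]; simp; linarith
      have hT : Tendsto (fun ε : ℝ => ‖Complex.exp (-(ε:ℂ) * z) • (z + 1)⁻¹ • Th Q (1 - z)‖) (𝓝[>] 0)
          (𝓝 ‖Complex.exp (-((0:ℝ):ℂ) * z) • (z + 1)⁻¹ • Th Q (1 - z)‖) := by
        have hc : Continuous (fun ε : ℝ => ‖Complex.exp (-(ε:ℂ) * z) • (z + 1)⁻¹ • Th Q (1 - z)‖) := by
          fun_prop
        exact (hc.tendsto 0).mono_left nhdsWithin_le_nhds
      have h5 : ‖Complex.exp (-((0:ℝ):ℂ) * z) • (z + 1)⁻¹ • Th Q (1 - z)‖ ≤ 2 * C0 := by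
        apply le_of_tendsto hT
        filter_upwards [self_mem_nhdsWithin] with ε hε
        exact hPL ε hε z hz0
      have hzn : z + 1 ≠ 0 := by
        intro h
        have := congrArg Complex.re h
        simp at this; linarith
      simp only [ofReal_zero, neg_zero, zero_mul, Complex.exp_zero, one_smul] at h5
      rw [norm_smul, norm_inv, inv_mul_le_iff₀ (by simpa using hzn), hz] at h5
      rw [sub_sub_cancel] at h5
      refine h5.trans ?_
      have : ‖1 - w + 1‖ ≤ 2 + ‖w‖ := by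
        calc ‖1 - w + 1‖ = ‖(2:ℂ) - w‖ := by congr 1; ring
          _ ≤ _ := by refine (norm_sub_le _ _).trans ?_; simp
      calc ‖1 - w + 1‖ * (2 * C0) ≤ (2 + ‖w‖) * (2 * C0) := by gcongr
        _ = _ := by ring
  -- Liouville
  have hQ2 : Q * Q = 0 := by
    have hid : ∀ w : ℂ, (w ^ 2) • (Q * Q * Th Q w) = Th Q w - 1 - w • Q := by
      intro w
      have h := Th_mul hu w
      have h2 : Th Q w = 1 + w • Q * Th Q w := by
        rw [sub_mul, one_mul] at h
        rw [← h]; ring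
      have h3 : Th Q w = 1 + w • Q * (1 + w • Q * Th Q w) := by
        rw [← h2]; exact h2
      have h4 : (w ^ 2) • (Q * Q * Th Q w) = w • Q * (w • Q * Th Q w) := by
        simp only [smul_mul_assoc, mul_smul_comm, smul_smul, mul_assoc]
        rw [pow_two]
      rw [h4]
      conv_rhs => rw [h3]
      ring
    have hd : Differentiable ℂ (fun w => Q * Q * Th Q w) := (Th_diff hu).const_mul _
    have hT : Tendsto (fun w : ℂ => Q * Q * Th Q w) (cocompact ℂ) (𝓝 0) := by
      have hT0 : Tendsto (fun w : ℂ => (2 * C0 * 3 + ‖(1:B)‖ + ‖Q‖) * ‖w‖⁻¹) (cocompact ℂ) (𝓝 0) := by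
        have : Tendsto (fun w : ℂ => ‖w‖⁻¹) (cocompact ℂ) (𝓝 0) :=
          tendsto_inv_atTop_zero.comp tendsto_norm_cocompact_atTop
        simpa using this.const_mul (2 * C0 * 3 + ‖(1:B)‖ + ‖Q‖)
      refine squeeze_zero_norm' ?_ hT0
      filter_upwards [tendsto_norm_cocompact_atTop.eventually_ge_atTop (1:ℝ)] with w hw
      have hw0 : 0 < ‖w‖ := by linarith
      have h6 : ‖w‖ ^ 2 * ‖Q * Q * Th Q w‖ ≤ 2 * C0 * (2 + ‖w‖) + ‖(1:B)‖ + ‖w‖ * ‖Q‖ := by
        rw [← norm_pow, ← norm_smul, hid w]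
        refine (norm_sub_le _ _).trans ?_
        rw [norm_smul]
        refine add_le_add ((norm_sub_le _ _).trans ?_) le_rfl
        exact add_le_add (hall w) le_rfl
      have h7 : 2 * C0 * (2 + ‖w‖) + ‖(1:B)‖ + ‖w‖ * ‖Q‖ ≤ (2 * C0 * 3 + ‖(1:B)‖ + ‖Q‖) * ‖w‖ := by
        nlinarith [norm_nonneg (1:B), norm_nonneg Q]
      have h8 : ‖w‖ ^ 2 * ‖Q * Q * Th Q w‖ ≤ (2 * C0 * 3 + ‖(1:B)‖ + ‖Q‖) * ‖w‖ := h6.trans h7
      rw [← div_eq_mul_inv, le_div_iff₀ hw0]
      have h9 : (‖Q * Q * Th Q w‖ * ‖w‖) * ‖w‖ ≤ (2 * C0 * 3 + ‖(1:B)‖ + ‖Q‖) * ‖w‖ := by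
        calc _ = ‖w‖ ^ 2 * ‖Q * Q * Th Q w‖ := by ring
          _ ≤ _ := h8
      exact le_of_mul_le_mul_right h9 hw0
    have h0 := hd.apply_eq_of_tendsto_cocompact 0 hT
    simpa [Th] using h0
  have hTh : ∀ w : ℂ, Th Q w = 1 + w • Q := by
    intro w
    have h := Th_mul hu w
    have h2 : (1 - w • Q) * (1 + w • Q) = 1 := by
      have : (1 - w • Q) * (1 + w • Q) = 1 - (w * w) • (Q * Q) := by
        have e : w • Q * (w • Q) = (w * w) • (Q * Q) := smul_mul_smul_comm _ _ _ _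
        rw [← e]; ring
      rw [this, hQ2, smul_zero, sub_zero]
    calc Th Q w = ((1 - w • Q) * (1 + w • Q)) * Th Q w := by rw [h2, one_mul]
      _ = ((1 - w • Q) * Th Q w) * (1 + w • Q) := by ring
      _ = _ := by rw [h, one_mul]
  by_contra hQ
  have hQn : 0 < ‖Q‖ := norm_pos_iff.2 hQ
  set x : ℝ := 1 + (2 * C0 + ‖(1:B)‖) / ‖Q‖ with hx
  have hx1 : 1 ≤ x := by rw [hx]; have : 0 ≤ (2 * C0 + ‖(1:B)‖) / ‖Q‖ := by positivity
                         linarith
  have h3 := h1 (x:ℂ) (by simp; linarith)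
  rw [hTh, Complex.norm_real, Real.norm_of_nonneg (by linarith), Complex.ofReal_re] at h3
  have h4 : C0 * (1 + x) / x ≤ 2 * C0 := by
    rw [div_le_iff₀ (by linarith)]; nlinarith
  have h5 : x * ‖Q‖ ≤ 2 * C0 + ‖(1:B)‖ := by
    calc x * ‖Q‖ = ‖(x:ℂ) • Q‖ := by rw [norm_smul, Complex.norm_real, Real.norm_of_nonneg (by linarith)]
      _ = ‖(1 + (x:ℂ) • Q) - 1‖ := by rw [add_sub_cancel_left]
      _ ≤ ‖1 + (x:ℂ) • Q‖ + ‖(1:B)‖ := norm_sub_le _ _
      _ ≤ _ := by linarith
  have h6 : x * ‖Q‖ = ‖Q‖ + (2 * C0 + ‖(1:B)‖) := by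
    rw [hx]; field_simp
  linarith

end

end Pool.Agent.Helper233.CI
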