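import Pool.Agent.Helper233.CI.Abs
set_option autoImplicit false
set_option linter.unusedSectionVars false
open Metric Set Filter Topology Complex
namespace Pool.Agent.Helper233.CI

section
variable {B : Type*} [NormedCommRing B] [NormedAlgebra ℂ B] [CompleteSpace B]

lemma norm_avg_le {f : ℂ → B} {r C : ℝ} (hr : 0 < r) (h : ∀ z, ‖z‖ = r → ‖f z‖ ≤ C) :
    ‖Real.circleAverage f 0 r‖ ≤ C := by
  rw [Real.circleAverage_def, norm_smul]
  have h1 := intervalIntegral.norm_integral_le_of_norm_le_const (a := 0) (b := 2 * Real.pi) (C := C)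
    (f := fun θ => f (circleMap 0 r θ)) (by
      intro θ _
      apply h
      rw [norm_circleMap_zero, abs_of_pos hr])
  have hpi : 0 < 2 * Real.pi := by positivity
  rw [sub_zero, abs_of_pos hpi] at h1
  rw [norm_inv, Real.norm_of_nonneg hpi.le, inv_mul_le_iff₀ hpi]
  linarith

lemma avg_mul_left (b : B) {f : ℂ → B} {r : ℝ} (hr : 0 < r) (hf : ContinuousOn f (sphere 0 r)) :
    Real.circleAverage (fun z => b * f z) 0 r = b * Real.circleAverage f 0 r := by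
  have := (ContinuousLinearMap.mul ℝ B b).circleAverage_comp_comm (hf.circleIntegrable hr.le)
  exact this

lemma avg_congr {f g : ℂ → B} {r : ℝ} (hr : 0 < r) (h : ∀ z, ‖z‖ = r → f z = g z) :
    Real.circleAverage f 0 r = Real.circleAverage g 0 r := by
  apply Real.circleAverage_congr_sphere
  intro z hz
  apply h
  simpa [abs_of_pos hr] using hz

lemma avg_sub {f g : ℂ → B} {r : ℝ} (hr : 0 < r) (hf : ContinuousOn f (sphere 0 r)) (hg : ContinuousOn g (sphere 0 r)) :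
    Real.circleAverage (fun z => f z - g z) 0 r = Real.circleAverage f 0 r - Real.circleAverage g 0 r :=
  Real.circleAverage_fun_sub (hf.circleIntegrable hr.le) (hg.circleIntegrable hr.le)

lemma avg_mean {f : ℂ → B} {r : ℝ} (hr : 0 < r) (hf : DifferentiableOn ℂ f (closedBall 0 r)) :
    Real.circleAverage f 0 r = f 0 := by
  apply DiffContOnCl.circleAverage
  rw [abs_of_pos hr]
  exact (hf.mono closure_ball_subset_closedBall).diffContOnCl

lemma avg_inv {T : ℂ → B} (hT : Differentiable ℂ T) {r : ℝ} (hr : 0 < r) :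
    Real.circleAverage (fun q => T q⁻¹) 0 r = T 0 := by
  rw [Real.circleAverage_eq_circleAverage_zero_one]
  have h1 : (fun z : ℂ => T ((r:ℂ) * z + 0)⁻¹) = (fun z : ℂ => (fun w => T ((r:ℂ)⁻¹ * w)) z⁻¹) := by
    funext z
    simp only [add_zero, mul_inv]
  rw [h1]
  have h2 := Real.circleAverage_zero_one_congr_inv (f := fun w => T ((r:ℂ)⁻¹ * w))
  rw [h2, avg_mean one_pos]
  · simp
  · exact (hT.comp (by fun_prop : Differentiable ℂ (fun w : ℂ => (r:ℂ)⁻¹ * w))).differentiableOn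

/-- the family `J_n` -/
lemma exists_J {T : ℂ → B} (hT : Differentiable ℂ T) (hT0 : T 0 = 1) {r M κ : ℝ} (hr : 0 < r) (hκ : 0 ≤ κ)
    (hM : ∀ w : ℂ, ‖w‖ ≤ r⁻¹ → ‖T w‖ ≤ M) {k : ℂ → ℂ} (hk : DifferentiableOn ℂ k (closedBall 0 r))
    (hk1 : ∀ q, ‖q‖ ≤ r → 1 + κ ≤ ‖k q‖) {kB : B} {H : ℂ → B} (hH : DifferentiableOn ℂ H (closedBall 0 r))
    (hH0 : H 0 = 0) (hid : ∀ q : ℂ, ‖q‖ = r → k q • T q⁻¹ - kB * T q⁻¹ = H q) (n : ℕ) :
    ∃ J : B, kB ^ n * J = 1 ∧ ‖J‖ ≤ M * ((1 + κ) ^ n)⁻¹ := by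
  have hk0 : ∀ q, ‖q‖ ≤ r → k q ≠ 0 := by
    intro q hq h
    have := hk1 q hq
    rw [h, norm_zero] at this; linarith
  have hM0 : 0 ≤ M := (norm_nonneg _).trans (hM 0 (by simp; positivity))
  have hsph : sphere (0:ℂ) r ⊆ closedBall 0 r := sphere_subset_closedBall
  have hkc : ContinuousOn k (sphere 0 r) := hk.continuousOn.mono hsph
  have hne : ∀ q ∈ sphere (0:ℂ) r, q ≠ 0 := by
    intro q hq h
    rw [mem_sphere_zero_iff_norm, h, norm_zero] at hq; linarith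
  have hTc : ContinuousOn (fun q : ℂ => T q⁻¹) (sphere 0 r) :=
    hT.continuous.comp_continuousOn (continuousOn_id.inv₀ hne)
  have hkn : ∀ m : ℕ, ContinuousOn (fun q : ℂ => ((k q) ^ m)⁻¹) (sphere 0 r) := by
    intro m
    apply (hkc.pow m).inv₀
    intro q hq
    exact pow_ne_zero _ (hk0 q (by rw [mem_sphere_zero_iff_norm] at hq; exact hq.le))
  refine ⟨Real.circleAverage (fun q => ((k q) ^ n)⁻¹ • T q⁻¹) 0 r, ?_, ?_⟩
  · induction n with
    | zero =>
      simp only [pow_zero, inv_one, one_smul, one_mul]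
      rw [avg_inv hT hr, hT0]
    | succ m ih =>
      have hstep : kB * Real.circleAverage (fun q => ((k q) ^ (m+1))⁻¹ • T q⁻¹) 0 r =
          Real.circleAverage (fun q => ((k q) ^ m)⁻¹ • T q⁻¹) 0 r := by
        rw [← avg_mul_left kB hr (f := fun q => ((k q) ^ (m+1))⁻¹ • T q⁻¹) ((hkn (m+1)).smul hTc)]
        have e1 : Real.circleAverage (fun q => kB * ((k q ^ (m + 1))⁻¹ • T q⁻¹)) 0 r =
            Real.circleAverage (fun q => ((k q) ^ m)⁻¹ • T q⁻¹ - (k q ^ (m+1))⁻¹ • H q) 0 r := by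
          apply avg_congr hr
          intro q hq
          have hkq := hk0 q hq.le
          rw [← hid q hq, smul_sub, smul_smul, mul_smul_comm]
          have : (k q ^ (m+1))⁻¹ * k q = (k q ^ m)⁻¹ := by
            rw [pow_succ]; field_simp
          rw [this, sub_sub_cancel]
        rw [e1, avg_sub hr (f := fun q => ((k q) ^ m)⁻¹ • T q⁻¹) (g := fun q => (k q ^ (m+1))⁻¹ • H q)
          ((hkn m).smul hTc) ((hkn (m+1)).smul (hH.continuousOn.mono hsph)),
          avg_mean hr (f := fun q => (k q ^ (m+1))⁻¹ • H q), hH0, smul_zero, sub_zero]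
        apply DifferentiableOn.fun_smul _ hH
        apply (hk.pow (m+1)).inv
        intro q hq
        exact pow_ne_zero _ (hk0 q (by simpa using hq))
      rw [pow_succ, mul_assoc, hstep, ih]
  · apply norm_avg_le hr
    intro q hq
    rw [norm_smul, norm_inv, norm_pow, mul_comm]
    have h1 := hk1 q hq.le
    have h2 : (1 + κ) ^ n ≤ ‖k q‖ ^ n := pow_le_pow_left₀ (by linarith) h1 n
    have h3 : ‖T q⁻¹‖ ≤ M := hM _ (by rw [norm_inv, hq])
    have h4 : (‖k q‖ ^ n)⁻¹ ≤ ((1 + κ) ^ n)⁻¹ := inv_anti₀ (by positivity) h2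
    gcongr

/-- resolvent bound by power bounds -/
lemma Th_bound {φ : B} {M κ : ℝ} (hM : 1 ≤ M) (hκ : 0 < κ) (hκ1 : κ ≤ 1) (h1 : ∀ n : ℕ, ‖φ ^ n‖ ≤ 1)
    (h2 : ∀ n : ℕ, ‖φ ^ n‖ ≤ M * ((1 + κ) ^ n)⁻¹) {w : ℂ} (hw : ‖w‖ = (1 - κ / 8)⁻¹) :
    ‖Th φ w‖ ≤ 8 * √M / κ := by
  have hc : 0 < 1 - κ / 8 := by linarith
  have hterm : ∀ n : ℕ, ‖(w • φ) ^ n‖ ≤ √M * (1 - κ / 8) ^ n := by
    intro n
    rw [smul_pow, norm_smul, norm_pow, hw]
    have h3 : ‖φ ^ n‖ ≤ √M * (√((1 + κ))⁻¹) ^ n := by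
      have h4 : ‖φ ^ n‖ ≤ √(M * ((1 + κ) ^ n)⁻¹) := by
        apply Real.le_sqrt_of_sq_le
        calc ‖φ ^ n‖ ^ 2 = ‖φ ^ n‖ * ‖φ ^ n‖ := by ring
          _ ≤ 1 * (M * ((1 + κ) ^ n)⁻¹) := by
            apply mul_le_mul (h1 n) (h2 n) (norm_nonneg _) zero_le_one
          _ = _ := one_mul _
      refine h4.trans (le_of_eq ?_)
      rw [Real.sqrt_mul (by linarith), ← inv_pow]
      congr 1
      rw [Real.sqrt_eq_iff_mul_self_eq (by positivity) (by positivity), ← mul_pow, Real.mul_self_sqrt (by positivity)]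
    have h5 : (1 - κ / 8)⁻¹ * √((1 + κ))⁻¹ ≤ 1 - κ / 8 := by
      rw [inv_mul_le_iff₀ hc]
      apply Real.sqrt_le_iff.2
      refine ⟨by positivity, ?_⟩
      rw [inv_le_iff_one_le_mul₀ (by positivity)]
      have h10 : 1 - κ / 2 ≤ (1 - κ / 8) ^ 4 := by
        have := one_add_mul_le_pow (show (-2:ℝ) ≤ -(κ / 8) by linarith) 4
        norm_num at this
        linarith [show (1 - κ / 8) ^ 4 = (1 + -(κ/8)) ^ 4 by ring]
      have h11 : ((1 - κ / 8) * (1 - κ / 8)) ^ 2 = (1 - κ / 8) ^ 4 := by ring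
      rw [h11]
      nlinarith
    calc (1 - κ / 8)⁻¹ ^ n * ‖φ ^ n‖ ≤ (1 - κ / 8)⁻¹ ^ n * (√M * (√((1 + κ))⁻¹) ^ n) := by gcongr
      _ = √M * ((1 - κ / 8)⁻¹ * √((1 + κ))⁻¹) ^ n := by rw [mul_pow]; ring
      _ ≤ √M * (1 - κ / 8) ^ n := by gcongr
  have hsum0 : HasSum (fun n : ℕ => √M * (1 - κ / 8) ^ n) (√M * (1 - (1 - κ / 8))⁻¹) :=
    (hasSum_geometric_of_lt_one hc.le (by linarith)).mul_left _
  have hsum : Summable (fun n : ℕ => (w • φ) ^ n) := Summable.of_norm_bounded hsum0.summable hterm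
  have h6 : Th φ w = ∑' n : ℕ, (w • φ) ^ n := by
    have h7 := hsum.one_sub_mul_tsum_pow
    have h8 : IsUnit (1 - w • φ) := IsUnit.of_mul_eq_one _ h7
    calc Th φ w = Th φ w * ((1 - w • φ) * ∑' n : ℕ, (w • φ) ^ n) := by rw [h7, mul_one]
      _ = (Ring.inverse (1 - w • φ) * (1 - w • φ)) * ∑' n : ℕ, (w • φ) ^ n := by rw [Th]; ring
      _ = _ := by rw [Ring.inverse_mul_cancel _ h8, one_mul]
  rw [h6]
  have h9 := tsum_of_norm_bounded hsum0 hterm
  refine h9.trans (le_of_eq ?_)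
  rw [sub_sub_cancel, inv_div]; ring

end

end Pool.Agent.Helper233.CI
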