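import Pool.Agent.Helper233.CI.Holo
set_option autoImplicit false
open Metric Set Filter Topology
namespace Pool.Agent.Helper233.CI

abbrev E := EuclideanSpace ℂ (Fin 2)

lemma aux_geo {a M r R : ℝ} (ha : a ≠ 0) (hR : R ≠ 0) (k : ℕ) :
    a⁻¹ * (r ^ k * (a * M / R ^ k)) = M * (r / R) ^ k := by
  rw [div_pow]; field_simp

lemma open_line (z : E) : IsOpen {ζ : ℂ | ζ • z ∈ ball (0:E) 1} :=
  isOpen_ball.preimage (by fun_prop)

lemma line_diff {f : E → ℂ} (hf : DifferentiableOn ℂ f (ball 0 1)) (z : E) :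
    DifferentiableOn ℂ (fun ζ : ℂ => f (ζ • z)) {ζ : ℂ | ζ • z ∈ ball (0:E) 1} := by
  intro ζ hζ
  have h1 : DifferentiableAt ℂ f (ζ • z) := hf.differentiableAt (isOpen_ball.mem_nhds hζ)
  have h2 : DifferentiableAt ℂ (fun ζ : ℂ => ζ • z) ζ := by fun_prop
  exact (DifferentiableAt.comp ζ h1 h2).differentiableWithinAt

lemma line_contDiffAt {f : E → ℂ} (hf : DifferentiableOn ℂ f (ball 0 1)) (z : E) (n : ℕ) :
    ContDiffAt ℂ n (fun ζ : ℂ => f (ζ • z)) 0 := by
  have h := (line_diff hf z).analyticAt ((open_line z).mem_nhds (by simp : (0:ℂ) ∈ _))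
  exact h.contDiffAt

lemma taylor_poly (k : ℕ) : ∀ (f : E → ℂ), DifferentiableOn ℂ f (ball 0 1) →
    ∃ p : MvPolynomial (Fin 2) ℂ, ∀ z : E,
      iteratedDeriv k (fun ζ : ℂ => f (ζ • z)) 0 = MvPolynomial.eval (fun i => z i) p := by
  induction k with
  | zero =>
    intro f hf
    exact ⟨MvPolynomial.C (f 0), fun z => by simp⟩
  | succ k ih =>
    intro f hf
    set e : Fin 2 → E := fun i => EuclideanSpace.single i (1:ℂ) with he
    have hfi : ∀ i, DifferentiableOn ℂ (fun x => fderiv ℂ f x (e i)) (ball 0 1) := fun i =>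
      Holo.differentiableOn_fderiv_apply isOpen_ball hf (e i)
    obtain ⟨p0, hp0⟩ := ih _ (hfi 0)
    obtain ⟨p1, hp1⟩ := ih _ (hfi 1)
    refine ⟨MvPolynomial.X 0 * p0 + MvPolynomial.X 1 * p1, fun z => ?_⟩
    have hev : deriv (fun ζ : ℂ => f (ζ • z)) =ᶠ[𝓝 0] fun ζ =>
        z 0 * fderiv ℂ f (ζ • z) (e 0) + z 1 * fderiv ℂ f (ζ • z) (e 1) := by
      filter_upwards [(open_line z).mem_nhds (by simp : (0:ℂ) ∈ _)] with ζ hζ
      have h1 : HasFDerivAt f (fderiv ℂ f (ζ • z)) (ζ • z) :=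
        (hf.differentiableAt (isOpen_ball.mem_nhds hζ)).hasFDerivAt
      have h2 : HasDerivAt (fun ζ : ℂ => ζ • z) z ζ := by
        simpa using (hasDerivAt_id ζ).smul_const z
      have h3 := (h1.comp_hasDerivAt ζ h2).deriv
      have hz : z = z 0 • e 0 + z 1 • e 1 := by
        ext i
        fin_cases i <;> simp [he]
      have h4 : fderiv ℂ f (ζ • z) z = z 0 * fderiv ℂ f (ζ • z) (e 0) + z 1 * fderiv ℂ f (ζ • z) (e 1) := by
        conv_lhs => rw [hz]
        rw [map_add, map_smul, map_smul, smul_eq_mul, smul_eq_mul]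
        rw [← hz]
      rw [← h4]
      exact h3
    rw [iteratedDeriv_succ', Filter.EventuallyEq.iteratedDeriv_eq k hev]
    have c0 := line_contDiffAt (hfi 0) z k
    have c1 := line_contDiffAt (hfi 1) z k
    have := iteratedDeriv_fun_add (n := k) (x := (0:ℂ)) (contDiffAt_const.mul c0 : ContDiffAt ℂ k
      (fun ζ : ℂ => z 0 * fderiv ℂ f (ζ • z) (e 0)) 0) (contDiffAt_const.mul c1 : ContDiffAt ℂ k
      (fun ζ : ℂ => z 1 * fderiv ℂ f (ζ • z) (e 1)) 0)
    rw [this, iteratedDeriv_const_mul_field, iteratedDeriv_const_mul_field, hp0, hp1]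
    simp

theorem dens (f : E → ℂ) (hc : ContinuousOn f (closedBall 0 1))
    (hd : DifferentiableOn ℂ f (ball 0 1)) {δ : ℝ} (hδ : 0 < δ) :
    ∃ p : MvPolynomial (Fin 2) ℂ, ∀ z ∈ closedBall (0:E) 1,
      ‖f z - MvPolynomial.eval (fun i => z i) p‖ ≤ δ := by
  have hK : IsCompact (closedBall (0:E) 1) := isCompact_closedBall _ _
  obtain ⟨M, hM⟩ := hK.exists_bound_of_continuousOn hc
  have hM0 : 0 ≤ M := (norm_nonneg _).trans (hM 0 (by simp))
  have huc := hK.uniformContinuousOn_of_continuous hc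
  rw [Metric.uniformContinuousOn_iff] at huc
  obtain ⟨η, hη, hη2⟩ := huc (δ / 2) (by positivity)
  set r : ℝ := 1 - min η 1 / 2 with hr
  have hmin : 0 < min η 1 := lt_min hη one_pos
  have hmin1 : min η 1 ≤ 1 := min_le_right _ _
  have hmin2 : min η 1 ≤ η := min_le_left _ _
  have hr0 : 0 < r := by rw [hr]; linarith
  have hr1 : r < 1 := by rw [hr]; linarith
  set R : ℝ := (1 + r) / 2 with hR
  have hR0 : 0 < R := by rw [hR]; linarith
  have hR1 : R < 1 := by rw [hR]; linarith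
  have hrR : r < R := by rw [hR]; linarith
  set q : ℝ := r / R with hq
  have hq0 : 0 ≤ q := by positivity
  have hq1 : q < 1 := (div_lt_one hR0).2 hrR
  choose p hp using fun k => taylor_poly k f hd
  have hlim : Tendsto (fun n : ℕ => M * q ^ n / (1 - q)) atTop (𝓝 0) := by
    have := ((tendsto_pow_atTop_nhds_zero_of_lt_one hq0 hq1).const_mul M).div_const (1 - q)
    simpa using this
  obtain ⟨n, hn⟩ := (hlim.eventually_lt_const (show (0:ℝ) < δ / 2 by positivity)).exists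
  refine ⟨∑ k ∈ Finset.range n, MvPolynomial.C (((Nat.factorial k : ℕ) : ℂ)⁻¹ * (r : ℂ) ^ k) * p k, ?_⟩
  intro z hz
  have hz1 : ‖z‖ ≤ 1 := by simpa using hz
  have hrz : (r : ℂ) • z ∈ closedBall (0:E) 1 := by
    rw [mem_closedBall_zero_iff, norm_smul, Complex.norm_real, Real.norm_of_nonneg hr0.le]
    nlinarith [norm_nonneg z]
  have h1 : ‖f z - f ((r:ℂ) • z)‖ < δ / 2 := by
    have := hη2 z hz _ hrz (by
      rw [dist_eq_norm]
      have : z - (r:ℂ) • z = ((1 - r : ℝ) : ℂ) • z := by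
        push_cast; rw [sub_smul, one_smul]
      rw [this, norm_smul, Complex.norm_real, Real.norm_of_nonneg (by linarith)]
      have : (1 - r) * ‖z‖ ≤ (1 - r) * 1 := mul_le_mul_of_nonneg_left hz1 (by linarith)
      rw [hr] at this ⊢
      linarith)
    rwa [dist_eq_norm] at this
  set g : ℂ → ℂ := fun ζ => f (ζ • z) with hg
  have hgd : DifferentiableOn ℂ g (ball 0 1) := by
    refine (line_diff hd z).mono ?_
    intro ζ hζ
    rw [mem_ball_zero_iff] at hζ
    simp only [mem_ofPred_eq, mem_ball_zero_iff, norm_smul]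
    rcases eq_or_lt_of_le (norm_nonneg z) with h | h
    · rw [← h]; simp
    · calc ‖ζ‖ * ‖z‖ < 1 * ‖z‖ := by gcongr
        _ ≤ 1 := by linarith
  have hs := Complex.hasSum_taylorSeries_on_ball hgd (z := (r:ℂ)) (by
    rw [mem_ball_zero_iff, Complex.norm_real, Real.norm_of_nonneg hr0.le]; exact hr1)
  have hcoef : ∀ k, ‖iteratedDeriv k g 0‖ ≤ k.factorial * M / R ^ k := by
    intro k
    refine Complex.norm_iteratedDeriv_le_of_forall_mem_sphere_norm_le k hR0
      ((hgd.mono (closedBall_subset_ball hR1)).diffContOnCl_ball (subset_refl _)) ?_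
    intro ζ hζ
    apply hM
    rw [mem_sphere_zero_iff_norm] at hζ
    rw [mem_closedBall_zero_iff, norm_smul, hζ]
    nlinarith [norm_nonneg z]
  have hterm : ∀ k : ℕ, ‖((Nat.factorial k : ℕ) : ℂ)⁻¹ • ((r:ℂ) - 0) ^ k • iteratedDeriv k g 0‖ ≤ M * q ^ k := by
    intro k
    rw [norm_smul, norm_smul, norm_inv, norm_pow, sub_zero, Complex.norm_real,
      Real.norm_of_nonneg hr0.le, Complex.norm_natCast]
    have hk : (0:ℝ) < k.factorial := by exact_mod_cast k.factorial_pos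
    calc ((k.factorial : ℝ))⁻¹ * (r ^ k * ‖iteratedDeriv k g 0‖)
        ≤ ((k.factorial : ℝ))⁻¹ * (r ^ k * (k.factorial * M / R ^ k)) := by
          gcongr; exact hcoef k
      _ = M * q ^ k := aux_geo hk.ne' hR0.ne' k
  have htail := norm_sub_le_of_geometric_bound_of_hasSum hq1 hterm hs n
  have hpe : MvPolynomial.eval (fun i => z i) (∑ k ∈ Finset.range n,
      MvPolynomial.C (((Nat.factorial k : ℕ) : ℂ)⁻¹ * (r : ℂ) ^ k) * p k) =
      ∑ k ∈ Finset.range n, ((Nat.factorial k : ℕ) : ℂ)⁻¹ • ((r:ℂ) - 0) ^ k • iteratedDeriv k g 0 := by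
    rw [map_sum]
    refine Finset.sum_congr rfl fun k _ => ?_
    rw [map_mul, MvPolynomial.eval_C, ← hp k z, smul_eq_mul, smul_eq_mul, sub_zero, mul_assoc]
  rw [hpe]
  calc ‖f z - ∑ k ∈ Finset.range n, ((Nat.factorial k : ℕ) : ℂ)⁻¹ • ((r:ℂ) - 0) ^ k • iteratedDeriv k g 0‖
      = ‖(f z - f ((r:ℂ) • z)) + (g (r:ℂ) - ∑ k ∈ Finset.range n, ((Nat.factorial k : ℕ) : ℂ)⁻¹ • ((r:ℂ) - 0) ^ k • iteratedDeriv k g 0)‖ := by
        congr 1; simp only [hg]; ring
    _ ≤ δ / 2 + δ / 2 := by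
        refine (norm_add_le _ _).trans (add_le_add h1.le ?_)
        rw [norm_sub_rev]
        exact htail.trans hn.le
    _ = δ := by ring

end Pool.Agent.Helper233.CI
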