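import Pool.Agent.Helper233.CI.Dens
set_option autoImplicit false
open Metric Set Filter Topology MvPolynomial
namespace Pool.Agent.Helper233.CI

lemma cont_evline (H : MvPolynomial (Fin 2) ℂ) (z p : Fin 2 → ℂ) :
    Continuous (fun t : ℝ => eval (fun i => p i + (t:ℂ) * (z i - p i)) H) := by
  refine (MvPolynomial.continuous_eval H).comp ?_
  refine continuous_pi fun i => ?_
  fun_prop

lemma int_poly (H : MvPolynomial (Fin 2) ℂ) : ∀ n : ℕ, ∃ γ : MvPolynomial (Fin 2 ⊕ Fin 2) ℂ,
    ∀ z p : Fin 2 → ℂ, eval (Sum.elim z p) γ =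
      ∫ t in (0:ℝ)..1, (t:ℂ) ^ n * eval (fun i => p i + (t:ℂ) * (z i - p i)) H := by
  have hint : ∀ (H : MvPolynomial (Fin 2) ℂ) (n : ℕ) (z p : Fin 2 → ℂ),
      IntervalIntegrable (fun t : ℝ => (t:ℂ) ^ n * eval (fun i => p i + (t:ℂ) * (z i - p i)) H)
        MeasureTheory.volume 0 1 := by
    intro H n z p
    apply Continuous.intervalIntegrable
    exact (by fun_prop : Continuous fun t : ℝ => (t:ℂ) ^ n).mul (cont_evline H z p)
  induction H using MvPolynomial.induction_on with
  | C a =>
    intro n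
    refine ⟨C ((∫ t in (0:ℝ)..1, (t:ℂ) ^ n) * a), fun z p => ?_⟩
    simp only [eval_C]
    rw [intervalIntegral.integral_mul_const]
  | add f g hf hg =>
    intro n
    obtain ⟨a, ha⟩ := hf n
    obtain ⟨b, hb⟩ := hg n
    refine ⟨a + b, fun z p => ?_⟩
    rw [map_add, ha, hb, ← intervalIntegral.integral_add (hint f n z p) (hint g n z p)]
    congr 1
    ext t
    rw [map_add]; ring
  | mul_X f j hf =>
    intro n
    obtain ⟨a, ha⟩ := hf n
    obtain ⟨b, hb⟩ := hf (n + 1)
    refine ⟨X (Sum.inr j) * a + (X (Sum.inl j) - X (Sum.inr j)) * b, fun z p => ?_⟩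
    rw [map_add, map_mul, map_mul, map_sub, eval_X, eval_X, ha, hb, Sum.elim_inl, Sum.elim_inr,
      ← intervalIntegral.integral_const_mul, ← intervalIntegral.integral_const_mul,
      ← intervalIntegral.integral_add ((hint f n z p).const_mul _) ((hint f (n+1) z p).const_mul _)]
    congr 1
    ext t
    rw [map_mul, eval_X]; ring

/-- directional derivative -/
noncomputable def Dd (h : MvPolynomial (Fin 2) ℂ) (y v : Fin 2 → ℂ) : ℂ :=
  ∑ i, v i * eval y (pderiv i h)

lemma hasDerivAt_line (h : MvPolynomial (Fin 2) ℂ) (y v : Fin 2 → ℂ) (η : ℂ) :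
    HasDerivAt (fun η : ℂ => eval (fun i => y i + η * v i) h)
      (Dd h (fun i => y i + η * v i) v) η := by
  unfold Dd
  induction h using MvPolynomial.induction_on with
  | C a => simpa using hasDerivAt_const η a
  | add f g hf hg =>
    have := hf.add hg
    simp only [map_add, mul_add, Finset.sum_add_distrib]
    exact this
  | mul_X f j hf =>
    have h1 : HasDerivAt (fun η : ℂ => y j + η * v j) (v j) η := by
      simpa using ((hasDerivAt_id η).mul_const (v j)).const_add (y j)
    have h2 := hf.mul h1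
    have e1 : (fun η : ℂ => eval (fun i => y i + η * v i) (f * X j)) =
        (fun η : ℂ => eval (fun i => y i + η * v i) f * (y j + η * v j)) := by
      ext η; rw [map_mul, eval_X]
    rw [e1]
    refine h2.congr_deriv ?_
    have e2 : ∀ i, v i * eval (fun i => y i + η * v i) (pderiv i (f * X j)) =
        v i * eval (fun i => y i + η * v i) (pderiv i f) * (y j + η * v j) +
        v i * (eval (fun i => y i + η * v i) f * (Pi.single i 1 : Fin 2 → ℂ) j) := by
      intro i
      rw [Derivation.leibniz, pderiv_X, smul_eq_mul, smul_eq_mul, map_add, map_mul, map_mul, eval_X]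
      have : (eval fun i => y i + η * v i) ((Pi.single i 1 : Fin 2 → MvPolynomial (Fin 2) ℂ) j) = (Pi.single i 1 : Fin 2 → ℂ) j := by
        by_cases hij : j = i
        · subst hij; simp
        · simp [Pi.single_eq_of_ne hij]
      rw [this]
      ring
    simp only [e2, Finset.sum_add_distrib, Finset.sum_mul]
    congr 1
    rw [Finset.sum_eq_single j]
    · simp; ring
    · intro b _ hb
      rw [Pi.single_eq_of_ne (Ne.symm hb)]; ring
    · intro h; exact absurd (Finset.mem_univ j) h

lemma ftc_line (h : MvPolynomial (Fin 2) ℂ) (z p : Fin 2 → ℂ) :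
    ∫ t in (0:ℝ)..1, Dd h (fun i => p i + (t:ℂ) * (z i - p i)) (fun i => z i - p i) =
      eval z h - eval p h := by
  have h1 : ∀ t ∈ uIcc (0:ℝ) 1, HasDerivAt (fun t : ℝ => eval (fun i => p i + (t:ℂ) * (z i - p i)) h)
      (Dd h (fun i => p i + (t:ℂ) * (z i - p i)) (fun i => z i - p i)) t := by
    intro t _
    exact (hasDerivAt_line h p (fun i => z i - p i) (t:ℂ)).comp_ofReal
  rw [intervalIntegral.integral_eq_sub_of_hasDerivAt h1]
  · simp
  · apply Continuous.intervalIntegrable
    unfold Dd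
    exact continuous_finsetSum _ fun i _ => continuous_const.mul (cont_evline _ z p)

/-- Gleason decomposition for polynomials -/
theorem gleason_poly (h : MvPolynomial (Fin 2) ℂ) : ∃ γ : Fin 2 → MvPolynomial (Fin 2 ⊕ Fin 2) ℂ,
    (rename Sum.inl h - rename Sum.inr h = ∑ i, (X (Sum.inl i) - X (Sum.inr i)) * γ i) ∧
    ∀ i, ∀ z p : Fin 2 → ℂ, eval (Sum.elim z p) (γ i) =
      ∫ t in (0:ℝ)..1, eval (fun i => p i + (t:ℂ) * (z i - p i)) (pderiv i h) := by
  choose γ hγ using fun i => int_poly (pderiv i h) 0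
  have hγ' : ∀ i, ∀ z p : Fin 2 → ℂ, eval (Sum.elim z p) (γ i) =
      ∫ t in (0:ℝ)..1, eval (fun i => p i + (t:ℂ) * (z i - p i)) (pderiv i h) := by
    intro i z p
    rw [hγ]; simp
  refine ⟨γ, ?_, hγ'⟩
  apply MvPolynomial.funext
  intro x
  set z : Fin 2 → ℂ := x ∘ Sum.inl with hz
  set p : Fin 2 → ℂ := x ∘ Sum.inr with hp
  have hx : x = Sum.elim z p := by
    ext i; cases i <;> rfl
  rw [map_sub, eval_rename, eval_rename, map_sum, ← hz, ← hp, ← ftc_line h z p]
  unfold Dd
  rw [intervalIntegral.integral_finsetSum]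
  · refine Finset.sum_congr rfl fun i _ => ?_
    rw [intervalIntegral.integral_const_mul, map_mul, map_sub, eval_X, eval_X]
    conv_rhs => rw [hx]
    rw [hγ' i z p]
    simp
  · intro i _
    exact (continuous_const.mul (cont_evline _ z p)).intervalIntegrable _ _

end Pool.Agent.Helper233.CI
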