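import Pool.Agent.Helper233.CI.Gleason
set_option autoImplicit false
open Metric Set Filter Topology MvPolynomial
namespace Pool.Agent.Helper233.CI

lemma Dd_add (h : MvPolynomial (Fin 2) ℂ) (y u w : Fin 2 → ℂ) (a : ℂ) :
    Dd h y (fun j => a * u j + w j) = a * Dd h y u + Dd h y w := by
  unfold Dd
  rw [Finset.mul_sum, ← Finset.sum_add_distrib]
  refine Finset.sum_congr rfl fun i _ => ?_
  ring

lemma cauchy_dir {h : MvPolynomial (Fin 2) ℂ} {M : ℝ}
    (hM : ∀ z ∈ closedBall (0:E) 1, ‖eval (fun i => z i) h‖ ≤ M) (y v : E) {ρ : ℝ} (hρ : 0 < ρ)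
    (hmem : ∀ η : ℂ, ‖η‖ = ρ → ‖y + η • v‖ ≤ 1) : ‖Dd h (fun j => y j) (fun j => v j)‖ ≤ M / ρ := by
  have hd : Differentiable ℂ (fun η : ℂ => eval (fun i => y i + η * v i) h) := fun η =>
    (hasDerivAt_line h (fun j => y j) (fun j => v j) η).differentiableAt
  have h0 := (hasDerivAt_line h (fun j => y j) (fun j => v j) 0).deriv
  have := Complex.norm_deriv_le_of_forall_mem_sphere_norm_le (c := (0:ℂ)) hρ hd.diffContOnCl (C := M) (by
    intro η hη
    rw [mem_sphere_zero_iff_norm] at hη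
    have := hM (y + η • v) (by simpa using hmem η hη)
    simpa using this)
  rw [h0] at this
  simpa using this

lemma Dd_single (h : MvPolynomial (Fin 2) ℂ) (y : Fin 2 → ℂ) (i : Fin 2) :
    Dd h y (fun j => (EuclideanSpace.single i (1:ℂ) : E) j) = eval y (pderiv i h) := by
  unfold Dd
  rw [Finset.sum_eq_single i]
  · simp
  · intro b _ hb; simp [hb]
  · intro h; exact absurd (Finset.mem_univ i) h

lemma cont_Dd (h : MvPolynomial (Fin 2) ℂ) (z p v : Fin 2 → ℂ) :
    Continuous (fun t : ℝ => Dd h (fun i => p i + (t:ℂ) * (z i - p i)) v) := by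
  unfold Dd
  exact continuous_finsetSum _ fun i _ => continuous_const.mul (cont_evline _ z p)

lemma int_rsqrt : ∫ t in (0:ℝ)..1, (1 - t) ^ (-(1/2) : ℝ) = 2 := by
  rw [intervalIntegral.integral_comp_sub_left (fun x : ℝ => x ^ (-(1/2) : ℝ)) 1]
  rw [sub_self, sub_zero, integral_rpow (Or.inl (by norm_num))]
  norm_num

lemma int_rsqrt' : IntervalIntegrable (fun t : ℝ => (1 - t) ^ (-(1/2) : ℝ)) MeasureTheory.volume 0 1 := by
  have := (intervalIntegral.intervalIntegrable_rpow' (a := 1) (b := 0) (r := -(1/2)) (by norm_num)).comp_sub_left 1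
  simpa using this

theorem gleason_bd (h : MvPolynomial (Fin 2) ℂ) {M : ℝ}
    (hM : ∀ z ∈ closedBall (0:E) 1, ‖eval (fun i => z i) h‖ ≤ M) (i : Fin 2) (z p : E)
    (hz : ‖z‖ ≤ 1) (hp : ‖p‖ < 1) :
    ‖∫ t in (0:ℝ)..1, eval (fun j => p j + (t:ℂ) * (z j - p j)) (pderiv i h)‖ ≤
      44 * M / (1 - ‖p‖) ^ 2 := by
  have hM0 : 0 ≤ M := (norm_nonneg _).trans (hM 0 (by simp))
  set δ : ℝ := 1 - ‖p‖ with hδ
  have hδ0 : 0 < δ := by rw [hδ]; linarith
  have hδ1 : δ ≤ 1 := by rw [hδ]; linarith [norm_nonneg p]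
  set e : E := EuclideanSpace.single i (1:ℂ) with he
  have hen : ‖e‖ = 1 := by rw [he]; simp
  have hyt : ∀ t : ℝ, 0 ≤ t → t ≤ 1 → ‖p + (t:ℂ) • (z - p)‖ ≤ (1 - t) * ‖p‖ + t * ‖z‖ := by
    intro t h0 h1
    have : p + (t:ℂ) • (z - p) = ((1 - t : ℝ) : ℂ) • p + (t:ℂ) • z := by
      push_cast; rw [sub_smul, one_smul, smul_sub]; abel
    rw [this]
    refine (norm_add_le _ _).trans ?_
    rw [norm_smul, norm_smul, Complex.norm_real, Complex.norm_real, Real.norm_of_nonneg (by linarith),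
      Real.norm_of_nonneg h0]
  have hfun : ∀ t : ℝ, (fun j => p j + (t:ℂ) * (z j - p j)) = fun j => (p + (t:ℂ) • (z - p)) j := by
    intro t; ext j; simp
  by_cases hcase : ‖z‖ ≤ (1 + ‖p‖) / 2
  · -- interior case
    have hb : ∀ t ∈ uIoc (0:ℝ) 1, ‖eval (fun j => p j + (t:ℂ) * (z j - p j)) (pderiv i h)‖ ≤ 2 * M / δ := by
      intro t ht
      rw [uIoc_of_le zero_le_one] at ht
      rw [← Dd_single, hfun]
      have := cauchy_dir hM (p + (t:ℂ) • (z - p)) e (ρ := δ / 2) (by positivity) (by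
        intro η hη
        refine (norm_add_le _ _).trans ?_
        rw [norm_smul, hη, hen]
        have h1 := hyt t ht.1.le ht.2
        have h2 : (1 - t) * ‖p‖ ≤ (1 - t) * ((1 + ‖p‖) / 2) := mul_le_mul_of_nonneg_left (by linarith) (by linarith [ht.2])
        have h3 : t * ‖z‖ ≤ t * ((1 + ‖p‖) / 2) := mul_le_mul_of_nonneg_left hcase ht.1.le
        rw [hδ]; linarith)
      refine this.trans (le_of_eq ?_)
      field_simp
    have := intervalIntegral.norm_integral_le_of_norm_le_const hb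
    refine this.trans ?_
    rw [sub_zero, abs_one, mul_one]
    rw [div_le_div_iff₀ hδ0 (by positivity)]
    nlinarith [mul_nonneg hM0 hδ0.le, mul_nonneg (mul_nonneg hM0 hδ0.le) (sub_nonneg.2 hδ1)]
  · push Not at hcase
    have hz0 : 0 < ‖z‖ := by linarith [norm_nonneg p]
    set s : ℂ := inner ℂ z (z - p) with hs
    have hs1 : ‖z‖ * δ / 2 ≤ ‖s‖ := by
      have h1 : s = inner ℂ z z - inner ℂ z p := by rw [hs, inner_sub_right]
      have h2 : (‖z‖:ℝ)^2 - ‖z‖ * ‖p‖ ≤ ‖s‖ := by
        have h3 : ‖(inner ℂ z z : ℂ)‖ = ‖z‖ ^ 2 := by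
          rw [inner_self_eq_norm_sq_to_K]; simp
        have h4 : ‖(inner ℂ z p : ℂ)‖ ≤ ‖z‖ * ‖p‖ := norm_inner_le_norm z p
        have h5 := norm_sub_norm_le (inner ℂ z z : ℂ) (inner ℂ z p)
        rw [← h1] at h5
        linarith
      have : ‖z‖ * δ / 2 ≤ (‖z‖:ℝ)^2 - ‖z‖ * ‖p‖ := by
        rw [hδ]; nlinarith
      linarith
    have hs0 : s ≠ 0 := by
      intro h
      rw [h, norm_zero] at hs1
      have : 0 < ‖z‖ * δ / 2 := by positivity
      linarith
    set a : ℂ := inner ℂ z e / s with ha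
    have ha1 : ‖a‖ ≤ 2 / δ := by
      rw [ha, norm_div]
      have h4 : ‖(inner ℂ z e : ℂ)‖ ≤ ‖z‖ := by
        have := norm_inner_le_norm (𝕜 := ℂ) z e
        rwa [hen, mul_one] at this
      rw [div_le_div_iff₀ (norm_pos_iff.2 hs0) hδ0]
      nlinarith
    set τ : E := e - a • (z - p) with hτ
    have hτ0 : (inner ℂ z τ : ℂ) = 0 := by
      rw [hτ, inner_sub_right, inner_smul_right, ← hs, ha]
      field_simp; ring
    have hτn : ‖τ‖ ≤ 5 / δ := by
      have h1 : ‖z - p‖ ≤ 2 := (norm_sub_le _ _).trans (by linarith)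
      calc ‖τ‖ ≤ ‖e‖ + ‖a • (z - p)‖ := norm_sub_le _ _
        _ ≤ 1 + 2 / δ * 2 := by rw [hen, norm_smul]; gcongr
        _ ≤ 5 / δ := by
            have : 1 ≤ 1 / δ := by rw [le_div_iff₀ hδ0]; linarith
            have h2 : 5 / δ = 1 / δ + 2 / δ * 2 := by ring
            linarith
    have hdec : ∀ t : ℝ, eval (fun j => p j + (t:ℂ) * (z j - p j)) (pderiv i h) =
        a * Dd h (fun j => p j + (t:ℂ) * (z j - p j)) (fun j => z j - p j) +
        Dd h (fun j => p j + (t:ℂ) * (z j - p j)) (fun j => τ j) := by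
      intro t
      rw [← Dd_single, ← Dd_add]
      congr 1
      ext j
      simp only [hτ, PiLp.sub_apply, PiLp.smul_apply, smul_eq_mul]
      ring
    have hint1 : IntervalIntegrable (fun t : ℝ => a * Dd h (fun j => p j + (t:ℂ) * (z j - p j)) (fun j => z j - p j)) MeasureTheory.volume 0 1 :=
      (continuous_const.mul (cont_Dd h _ _ _)).intervalIntegrable _ _
    have hint2 : IntervalIntegrable (fun t : ℝ => Dd h (fun j => p j + (t:ℂ) * (z j - p j)) (fun j => τ j)) MeasureTheory.volume 0 1 :=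
      (cont_Dd h _ _ _).intervalIntegrable _ _
    simp only [hdec]
    rw [intervalIntegral.integral_add hint1 hint2, intervalIntegral.integral_const_mul, ftc_line]
    have hA : ‖a * (eval (fun j => z j) h - eval (fun j => p j) h)‖ ≤ 4 * M / δ := by
      rw [norm_mul]
      have h1 : ‖eval (fun j => z j) h - eval (fun j => p j) h‖ ≤ 2 * M := by
        refine (norm_sub_le _ _).trans ?_
        have := hM z (by simpa using hz)
        have := hM p (by simpa using hp.le)
        linarith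
      calc ‖a‖ * _ ≤ 2 / δ * (2 * M) := by gcongr
        _ = 4 * M / δ := by ring
    have hB : ‖∫ t in (0:ℝ)..1, Dd h (fun j => p j + (t:ℂ) * (z j - p j)) (fun j => τ j)‖ ≤ 40 * M / δ ^ 2 := by
      have hgi : IntervalIntegrable (fun t : ℝ => 20 * M / δ ^ 2 * (1 - t) ^ (-(1/2) : ℝ)) MeasureTheory.volume 0 1 :=
        int_rsqrt'.const_mul _
      have hle := intervalIntegral.norm_integral_le_of_norm_le (f := fun t : ℝ => Dd h (fun j => p j + (t:ℂ) * (z j - p j)) (fun j => τ j))
        (g := fun t : ℝ => 20 * M / δ ^ 2 * (1 - t) ^ (-(1/2) : ℝ)) (μ := MeasureTheory.volume) (a := 0) (b := 1) zero_le_one (by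
        have : ∀ᵐ t : ℝ, t ≠ 1 := by
          simp [MeasureTheory.ae_iff]
        filter_upwards [this] with t ht1 ht
        have ht2 : t < 1 := lt_of_le_of_ne ht.2 ht1
        have h1t : 0 < 1 - t := by linarith
        have hsq : 0 < √(1 - t) := Real.sqrt_pos.2 h1t
        have hsq2 : √(1 - t) ^ 2 = 1 - t := Real.sq_sqrt h1t.le
        have hsq1 : √(1 - t) ≤ 1 := Real.sqrt_le_one.2 (by linarith [ht.1])
        rw [hfun]
        have := cauchy_dir hM (p + (t:ℂ) • (z - p)) τ (ρ := √(1 - t) * δ ^ 2 / 20) (by positivity) (by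
          intro η hη
          set y := p + (t:ℂ) • (z - p) with hy
          have hyn : ‖y‖ ≤ 1 - (1 - t) * δ := by
            have h1 := hyt t ht.1.le ht.2
            have h3 : t * ‖z‖ ≤ t * 1 := mul_le_mul_of_nonneg_left hz ht.1.le
            rw [hδ]; nlinarith
          have hinner : ‖(inner ℂ y (η • τ) : ℂ)‖ ≤ (1 - t) * (√(1 - t) * δ / 4) := by
            have h1 : y = ((1 - t : ℝ) : ℂ) • p + (t:ℂ) • z := by
              rw [hy]; push_cast; rw [sub_smul, one_smul, smul_sub]; abel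
            rw [h1, inner_add_left, inner_smul_left, inner_smul_left, inner_smul_right, inner_smul_right, hτ0,
              mul_zero, mul_zero, add_zero, norm_mul, norm_mul, hη]
            simp only [Complex.conj_ofReal, Complex.norm_real]
            rw [Real.norm_of_nonneg h1t.le]
            have h2 : ‖(inner ℂ p τ : ℂ)‖ ≤ 5 / δ := by
              calc ‖(inner ℂ p τ : ℂ)‖ ≤ ‖p‖ * ‖τ‖ := norm_inner_le_norm p τ
                _ ≤ 1 * (5 / δ) := by gcongr
                _ = 5 / δ := one_mul _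
            calc (1 - t) * (√(1 - t) * δ ^ 2 / 20 * ‖(inner ℂ p τ : ℂ)‖) ≤ (1 - t) * (√(1 - t) * δ ^ 2 / 20 * (5 / δ)) := by gcongr
              _ = (1 - t) * (√(1 - t) * δ / 4) := by field_simp; ring
          have hητ : ‖η • τ‖ ≤ √(1 - t) * δ / 4 := by
            rw [norm_smul, hη]
            calc √(1 - t) * δ ^ 2 / 20 * ‖τ‖ ≤ √(1 - t) * δ ^ 2 / 20 * (5 / δ) := by gcongr
              _ = √(1 - t) * δ / 4 := by field_simp; ring
          have hsqn : ‖y + η • τ‖ ^ 2 ≤ 1 := by
            rw [norm_add_sq (𝕜 := ℂ)]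
            have hre : RCLike.re (inner ℂ y (η • τ) : ℂ) ≤ (1 - t) * (√(1 - t) * δ / 4) :=
              (RCLike.re_le_norm _).trans hinner
            have h5 : ‖η • τ‖ ^ 2 ≤ (√(1 - t) * δ / 4) ^ 2 := by gcongr
            have h6 : ‖y‖ ^ 2 ≤ 1 - (1 - t) * δ := by
              have : 0 ≤ 1 - (1 - t) * δ := (norm_nonneg _).trans hyn
              have h7 : 1 - (1 - t) * δ ≤ 1 := by nlinarith
              calc ‖y‖ ^ 2 ≤ (1 - (1 - t) * δ) ^ 2 := by gcongr
                _ ≤ 1 - (1 - t) * δ := by nlinarith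
            have h7 : (√(1 - t) * δ / 4) ^ 2 ≤ (1 - t) * δ / 16 := by
              have : (√(1 - t) * δ / 4) ^ 2 = (1 - t) * δ ^ 2 / 16 := by rw [div_pow, mul_pow, hsq2]; norm_num
              rw [this]
              have : δ ^ 2 ≤ δ := by nlinarith
              have := mul_le_mul_of_nonneg_left this h1t.le
              linarith
            have h8 : (1 - t) * (√(1 - t) * δ / 4) ≤ (1 - t) * (δ / 4) := by
              apply mul_le_mul_of_nonneg_left _ h1t.le
              nlinarith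
            nlinarith [mul_pos h1t hδ0]
          nlinarith [norm_nonneg (y + η • τ)])
        refine this.trans (le_of_eq ?_)
        rw [Real.rpow_neg h1t.le, ← Real.sqrt_eq_rpow]
        field_simp)
        hgi
      refine hle.trans (le_of_eq ?_)
      rw [intervalIntegral.integral_const_mul, int_rsqrt]; ring
    calc _ ≤ 4 * M / δ + 40 * M / δ ^ 2 := (norm_add_le _ _).trans (add_le_add hA hB)
      _ ≤ 44 * M / δ ^ 2 := by
          have : 4 * M / δ ≤ 4 * M / δ ^ 2 := by
            apply div_le_div_of_nonneg_left (by positivity) (by positivity)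
            nlinarith
          have h2 : 44 * M / δ ^ 2 = 4 * M / δ ^ 2 + 40 * M / δ ^ 2 := by ring
          linarith

end Pool.Agent.Helper233.CI
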