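import Mathlib
set_option autoImplicit false
open Metric Set Filter Topology
namespace Pool.Agent.Helper233.CI

/-- three circles with a constant -/
lemma three_circ {B : Type*} [NormedAddCommGroup B] [NormedSpace ℂ B] [CompleteSpace B] {F : ℂ → B}
    (hF : Differentiable ℂ F) (c : ℂ) {τ M1 M3 : ℝ} (hτ : 0 < τ)
    (h1 : ∀ z, ‖z - c‖ ≤ τ / 2 → ‖F z‖ ≤ M1) (h3 : ∀ z, ‖z - c‖ ≤ 3 * τ → ‖F z‖ ≤ M3)
    {z : ℂ} (hz : ‖z - c‖ ≤ τ) : ‖F z‖ ≤ 6 * √(M1 * M3) := by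
  have hM1 : 0 ≤ M1 := (norm_nonneg _).trans (h1 c (by simp; positivity))
  have hM3 : 0 ≤ M3 := (norm_nonneg _).trans (h3 c (by simp; positivity))
  have hs := Complex.hasSum_taylorSeries_of_entire hF c z
  have hD1 : ∀ n, ‖iteratedDeriv n F c‖ ≤ n.factorial * M1 / (τ / 2) ^ n := fun n =>
    Complex.norm_iteratedDeriv_le_of_forall_mem_sphere_norm_le n (by positivity) hF.diffContOnCl
      (fun w hw => h1 w (by rw [mem_sphere_iff_norm] at hw; exact hw.le))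
  have hD3 : ∀ n, ‖iteratedDeriv n F c‖ ≤ n.factorial * M3 / (3 * τ) ^ n := fun n =>
    Complex.norm_iteratedDeriv_le_of_forall_mem_sphere_norm_le n (by positivity) hF.diffContOnCl
      (fun w hw => h3 w (by rw [mem_sphere_iff_norm] at hw; exact hw.le))
  have hterm : ∀ n : ℕ, ‖((Nat.factorial n : ℕ) : ℂ)⁻¹ • (z - c) ^ n • iteratedDeriv n F c‖ ≤
      √(M1 * M3) * (5 / 6) ^ n := by
    intro n
    set x := ‖((Nat.factorial n : ℕ) : ℂ)⁻¹ • (z - c) ^ n • iteratedDeriv n F c‖ with hx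
    have hx0 : 0 ≤ x := norm_nonneg _
    have hk : (0:ℝ) < n.factorial := by exact_mod_cast n.factorial_pos
    have hxe : x = (n.factorial : ℝ)⁻¹ * (‖z - c‖ ^ n * ‖iteratedDeriv n F c‖) := by
      rw [hx, norm_smul, norm_smul, norm_inv, norm_pow, Complex.norm_natCast]
    have hb1 : x ≤ M1 * 2 ^ n := by
      rw [hxe]
      calc (n.factorial : ℝ)⁻¹ * (‖z - c‖ ^ n * ‖iteratedDeriv n F c‖)
          ≤ (n.factorial : ℝ)⁻¹ * (τ ^ n * (n.factorial * M1 / (τ / 2) ^ n)) := by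
            gcongr; exact hD1 n
        _ = M1 * 2 ^ n := by rw [div_pow]; field_simp
    have hb3 : x ≤ M3 * (1 / 3) ^ n := by
      rw [hxe]
      calc (n.factorial : ℝ)⁻¹ * (‖z - c‖ ^ n * ‖iteratedDeriv n F c‖)
          ≤ (n.factorial : ℝ)⁻¹ * (τ ^ n * (n.factorial * M3 / (3 * τ) ^ n)) := by
            gcongr; exact hD3 n
        _ = M3 * (1 / 3) ^ n := by rw [mul_pow, div_pow, one_pow]; field_simp
    have hroot : √(M1 * M3) * (5 / 6) ^ n = √((M1 * M3) * ((5 / 6) ^ n) ^ 2) := by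
      rw [Real.sqrt_mul (mul_nonneg hM1 hM3) (((5 / 6 : ℝ) ^ n) ^ 2), Real.sqrt_sq (by positivity)]
    rw [hroot]
    apply Real.le_sqrt_of_sq_le
    · calc x ^ 2 = x * x := sq x
        _ ≤ (M1 * 2 ^ n) * (M3 * (1 / 3) ^ n) := mul_le_mul hb1 hb3 hx0 (by positivity)
        _ = (M1 * M3) * (2 / 3) ^ n := by
            rw [show (2:ℝ) / 3 = 2 * (1 / 3) by norm_num, mul_pow]; ring
        _ ≤ (M1 * M3) * ((5 / 6) ^ n) ^ 2 := by
            rw [← pow_mul, mul_comm n 2, pow_mul]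
            gcongr; norm_num
  have hg : HasSum (fun n : ℕ => √(M1 * M3) * (5 / 6 : ℝ) ^ n) (√(M1 * M3) * (1 - 5 / 6)⁻¹) :=
    (hasSum_geometric_of_lt_one (by norm_num) (by norm_num)).mul_left _
  have := hs.norm_le_of_bounded hg hterm
  refine this.trans (le_of_eq ?_)
  norm_num; ring

/-- iteration lemma -/
lemma iter {Z : ℝ → ℝ} {R D C : ℝ} (p : ℕ) (hR : 0 < R) (hC : ∀ t, R ≤ t → t ≤ 2 * R → Z t ≤ C)
    (hD : 0 ≤ D)
    (h : ∀ t t', R ≤ t → t < t' → t' ≤ 2 * R → Z t ≤ (1 / 2) * Z t' + D * (R / (t' - t)) ^ p) :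
    Z R ≤ 3 * (4 * (p + 1)) ^ p * D := by
  set q : ℝ := 4 * (p + 1) with hq
  have hp0 : (0:ℝ) ≤ p := Nat.cast_nonneg p
  have hq0 : 0 < q := by rw [hq]; positivity
  have hq4 : 4 ≤ q := by rw [hq]; linarith
  set ρ : ℝ := 1 - 1 / q with hρ
  have hq1 : 1 / q ≤ 1 / 4 := one_div_le_one_div_of_le (by norm_num) hq4
  have hρ0 : 0 < ρ := by rw [hρ]; linarith
  have hρ1 : ρ < 1 := by rw [hρ]; linarith [one_div_pos.2 hq0]
  have hρp : 3 / 4 ≤ ρ ^ p := by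
    have := one_add_mul_le_pow (show (-2:ℝ) ≤ -(1 / q) by linarith) p
    have h2 : (p:ℝ) * (1 / q) ≤ 1 / 4 := by
      rw [mul_one_div, div_le_div_iff₀ hq0 (by norm_num), hq]; linarith
    have h3 : 1 + (p:ℝ) * -(1 / q) ≤ ρ ^ p := by
      simpa [hρ, sub_eq_add_neg] using this
    linarith
  set t : ℕ → ℝ := fun i => R * (2 - ρ ^ i) with ht
  have hρi : ∀ i : ℕ, 0 < ρ ^ i := fun i => pow_pos hρ0 i
  have hρi1 : ∀ i : ℕ, ρ ^ i ≤ 1 := fun i => pow_le_one₀ hρ0.le hρ1.le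
  have ht1 : ∀ i, R ≤ t i := fun i => by
    simp only [ht]; nlinarith [hρi1 i]
  have ht2 : ∀ i, t i ≤ 2 * R := fun i => by
    simp only [ht]; nlinarith [hρi i]
  have hdiff : ∀ i, t (i + 1) - t i = R * ρ ^ i / q := fun i => by
    simp only [ht, pow_succ, hρ]; field_simp; ring
  have hpos : ∀ i, 0 < R * ρ ^ i / q := fun i => div_pos (mul_pos hR (hρi i)) hq0
  have hstep : ∀ i, Z (t i) ≤ (1 / 2) * Z (t (i + 1)) + D * (q ^ p * ((ρ ^ p) ^ i)⁻¹) := by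
    intro i
    have := h (t i) (t (i + 1)) (ht1 i) (by linarith [hdiff i, hpos i]) (ht2 _)
    refine this.trans (le_of_eq ?_)
    rw [hdiff i]
    have e : R / (R * ρ ^ i / q) = q * (ρ ^ i)⁻¹ := by
      have := (hρi i).ne'
      field_simp
    rw [e, mul_pow, inv_pow, ← pow_mul, ← pow_mul, mul_comm i p]
  have hmain : ∀ n : ℕ, Z (t 0) ≤ (1 / 2) ^ n * Z (t n) + D * q ^ p * ∑ i ∈ Finset.range n, (2 / 3 : ℝ) ^ i := by
    intro n
    induction n with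
    | zero => simp
    | succ n ih =>
      rw [Finset.sum_range_succ]
      have h1 := mul_le_mul_of_nonneg_left (hstep n) (show (0:ℝ) ≤ (1 / 2) ^ n by positivity)
      have h2 : (1 / 2 : ℝ) ^ n * ((ρ ^ p) ^ n)⁻¹ ≤ (2 / 3) ^ n := by
        rw [← inv_pow, ← mul_pow]
        apply pow_le_pow_left₀ (by positivity)
        rw [← div_eq_mul_inv, div_le_iff₀ (by positivity)]
        linarith
      have h3 : D * q ^ p * ((1 / 2 : ℝ) ^ n * ((ρ ^ p) ^ n)⁻¹) ≤ D * q ^ p * (2 / 3) ^ n :=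
        mul_le_mul_of_nonneg_left h2 (by positivity)
      have h4 : (1 / 2 : ℝ) ^ n * (1 / 2 * Z (t (n + 1)) + D * (q ^ p * ((ρ ^ p) ^ n)⁻¹)) =
        (1 / 2) ^ (n + 1) * Z (t (n + 1)) + D * q ^ p * ((1 / 2 : ℝ) ^ n * ((ρ ^ p) ^ n)⁻¹) := by ring
      rw [h4] at h1
      linarith
  have hgeo : ∀ n : ℕ, ∑ i ∈ Finset.range n, (2 / 3 : ℝ) ^ i ≤ 3 := by
    intro n
    rw [geom_sum_eq (by norm_num)]
    have : (0:ℝ) < (2 / 3) ^ n := by positivity
    rw [div_le_iff_of_neg (by norm_num)]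
    linarith
  have ht0 : t 0 = R := by simp only [ht, pow_zero]; ring
  have hfin : ∀ n : ℕ, Z R ≤ (1 / 2) ^ n * C + 3 * q ^ p * D := by
    intro n
    have h1 := hmain n
    rw [ht0] at h1
    have h2 := mul_le_mul_of_nonneg_left (hC (t n) (ht1 n) (ht2 n)) (show (0:ℝ) ≤ (1 / 2) ^ n by positivity)
    have h3 := mul_le_mul_of_nonneg_left (hgeo n) (show (0:ℝ) ≤ D * q ^ p by positivity)
    linarith
  have hl : Tendsto (fun n : ℕ => (1 / 2 : ℝ) ^ n * C + 3 * q ^ p * D) atTop (𝓝 (0 * C + 3 * q ^ p * D)) :=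
    ((tendsto_pow_atTop_nhds_zero_of_lt_one (by norm_num) (by norm_num)).mul_const C).add_const _
  have := ge_of_tendsto' hl hfin
  simpa using this

end Pool.Agent.Helper233.CI
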