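import Mathlib
set_option autoImplicit false
open Metric Set Filter Topology Complex
namespace Pool.Agent.Helper233.CI

lemma nsq (z : ℂ) : ‖z‖ ^ 2 = z.re ^ 2 + z.im ^ 2 := by
  rw [← Complex.normSq_eq_norm_sq, Complex.normSq_apply]; ring

lemma num_m (y : ℂ) : ‖2 * y - 1‖ ^ 2 = 4 * ‖y‖ ^ 2 + 1 - 4 * y.re := by
  rw [nsq, nsq]; simp; ring

lemma num_p (y : ℂ) : ‖2 * y + 1‖ ^ 2 = 4 * ‖y‖ ^ 2 + 1 + 4 * y.re := by
  rw [nsq, nsq]; simp; ring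

lemma moeb (l z : ℂ) : ‖1 - (starRingEnd ℂ) l * z‖ ^ 2 - ‖z - l‖ ^ 2 = (1 - ‖l‖ ^ 2) * (1 - ‖z‖ ^ 2) := by
  simp only [nsq]; simp; ring

lemma re_omega (y q : ℂ) : (-((starRingEnd ℂ) y) * (1 - y * q) * (starRingEnd ℂ) (1 + (starRingEnd ℂ) y * q)).re =
    -y.re * (1 - ‖y‖ ^ 2 * ‖q‖ ^ 2) := by
  simp only [nsq]; simp; ring

lemma kphi {w s t : ℝ} (hw : 0 ≤ w) (hw1 : w ≤ 1) (hs : 0 ≤ s) (hs1 : s ≤ 1) (ht : 0 ≤ t) (hst : t ^ 2 ≤ 1 - s ^ 2) :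
    (1 - w ^ 2 / 2 + w * s) * t ≤ 1 := by
  have h1 : t ≤ 1 - s ^ 2 / 2 := by
    apply le_of_sq_le_sq _ (by nlinarith)
    nlinarith [sq_nonneg (s ^ 2)]
  have h0 : 0 ≤ 1 - w ^ 2 / 2 + w * s := by nlinarith
  have h2 : (1 - w ^ 2 / 2 + w * s) * t ≤ (1 - w ^ 2 / 2 + w * s) * (1 - s ^ 2 / 2) :=
    mul_le_mul_of_nonneg_left h1 h0
  have h3 : (1 - w ^ 2 / 2 + w * s) * (1 - s ^ 2 / 2) = 1 - (w - s) ^ 2 / 2 + (w * s ^ 2 / 4) * (w - 2 * s) := by ring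
  have h4 : (w * s ^ 2 / 4) * (w - 2 * s) ≤ (w - s) ^ 2 / 2 := by
    by_cases h : w ≤ 2 * s
    · have : (w * s ^ 2 / 4) * (w - 2 * s) ≤ 0 := mul_nonpos_of_nonneg_of_nonpos (by positivity) (by linarith)
      nlinarith [sq_nonneg (w - s)]
    · push Not at h
      have h5 : (w * s ^ 2 / 4) * (w - 2 * s) ≤ (w / 4) * (w - 2 * s) := by
        apply mul_le_mul_of_nonneg_right _ (by linarith)
        nlinarith [mul_nonneg hw (show 0 ≤ 1 - s ^ 2 by nlinarith)]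
      nlinarith [mul_nonneg hw hs]
  linarith

end Pool.Agent.Helper233.CI
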