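import Pool.Agent.Helper233.CI.Rep
import Pool.Agent.Helper233.CI.Num
set_option autoImplicit false
set_option linter.unusedSectionVars false
open Metric Set Filter Topology Complex
namespace Pool.Agent.Helper233.CI

section
variable {B : Type*} [NormedCommRing B] [NormedAlgebra ℂ B] [CompleteSpace B]

structure Good (ρ : Rep B) (f : E → ℂ) : Prop where
  hf : BA f
  hU : ρ.U f = 0
  hz : ∀ z ∈ closedBall (0:E) 1, f z = 0 → z = e0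

/-- affine functions in the first coordinate -/
def aff (a b : ℂ) : E → ℂ := fun z => a + b * z 0

lemma BA.aff (a b : ℂ) : BA (aff a b) := (BA.const a).add ((BA.const b).mul (BA.coord 0))

lemma aff_e0 (a b : ℂ) : aff a b e0 = a + b := by simp [CI.aff, e0]

variable {ρ : Rep B} {f : E → ℂ}

lemma U_aff (a b : ℂ) : ρ.U (aff a b) = a • (1:B) + b • ρ.U (fun z => z 0) := by
  unfold CI.aff
  rw [ρ.add _ _ (BA.const a) ((BA.const b).mul (BA.coord 0)), ρ.const, ρ.smul (BA.coord 0), Algebra.algebraMap_eq_smul_one]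

lemma Good.isUnit_aff (h : Good ρ f) {a b : ℂ} (hab : a + b ≠ 0) : IsUnit (ρ.U (aff a b)) :=
  ρ.isUnit_of h.hf h.hU h.hz (BA.aff a b) (by rwa [aff_e0])

/-- `Q = N G⁻¹` -/
noncomputable def QQ (ρ : Rep B) : B := ρ.U (aff (-1) 1) * Ring.inverse (ρ.U (aff (1/2) (1/2)))

/-- `L w = G - w N` -/
noncomputable def LL (ρ : Rep B) (w : ℂ) : B := ρ.U (aff (1/2 + w) (1/2 - w))

lemma LL_eq (w : ℂ) : LL ρ w = ρ.U (aff (1/2) (1/2)) - w • ρ.U (aff (-1) 1) := by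
  unfold LL
  rw [U_aff, U_aff, U_aff]
  module

lemma Good.isUnit_G (h : Good ρ f) : IsUnit (ρ.U (aff (1/2) (1/2))) := h.isUnit_aff (by norm_num)

lemma Good.isUnit_L (h : Good ρ f) (w : ℂ) : IsUnit (LL ρ w) := h.isUnit_aff (by ring_nf; norm_num)

lemma Good.L_mul (h : Good ρ f) (w : ℂ) : (1 - w • QQ ρ) * ρ.U (aff (1/2) (1/2)) = LL ρ w := by
  have h1 := Ring.inverse_mul_cancel _ h.isUnit_G
  rw [LL_eq, QQ, sub_mul, one_mul, smul_mul_assoc, mul_assoc, h1, mul_one]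

lemma Good.hu (h : Good ρ f) (w : ℂ) : IsUnit (1 - w • QQ ρ) := by
  have := h.isUnit_L w
  rw [← h.L_mul] at this
  exact isUnit_of_mul_isUnit_left this

lemma Good.Th_L (h : Good ρ f) (w : ℂ) : Th (QQ ρ) w * LL ρ w = ρ.U (aff (1/2) (1/2)) := by
  rw [← h.L_mul, ← mul_assoc, Th, Ring.inverse_mul_cancel _ (h.hu w), one_mul]

lemma norm_coord_le {z : E} (hz : z ∈ closedBall (0:E) 1) (i : Fin 2) : ‖z i‖ ≤ 1 := by
  rw [mem_closedBall_zero_iff] at hz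
  exact (PiLp.norm_apply_le z i).trans hz

lemma norm_Z_le (ρ : Rep B) (i : Fin 2) : ‖ρ.U (fun z => z i)‖ ≤ 1 :=
  ρ.bd _ (BA.coord i) 1 (fun z hz => norm_coord_le hz i)

lemma norm_G_le (ρ : Rep B) : ‖ρ.U (aff (1/2) (1/2))‖ ≤ 1 := by
  apply ρ.bd _ (BA.aff _ _)
  intro z hz
  have h0 := norm_coord_le hz 0
  unfold CI.aff
  calc ‖(1/2:ℂ) + 1/2 * z 0‖ ≤ ‖(1/2:ℂ)‖ + ‖(1/2:ℂ) * z 0‖ := norm_add_le _ _
    _ ≤ 1/2 + 1/2 * 1 := by
      rw [norm_mul]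
      have : ‖(1/2:ℂ)‖ = 1/2 := by norm_num
      rw [this]; gcongr
    _ = 1 := by norm_num

/-- T1 -/
theorem Good.T1 (h : Good ρ f) (w : ℂ) (hw : 0 < w.re) : ‖Th (QQ ρ) w‖ ≤ 1 * (1 + ‖w‖) / w.re := by
  set X := Th (QQ ρ) w with hX
  have h1 : (1/2 + w) • X = ρ.U (aff (1/2) (1/2)) - (1/2 - w) • (ρ.U (fun z => z 0) * X) := by
    have := h.Th_L w
    rw [← this, LL, U_aff, ← hX, mul_add, mul_smul_comm, mul_one, mul_smul_comm, mul_comm X (ρ.U _), add_sub_cancel_right]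
  have h2 : ‖1/2 + w‖ * ‖X‖ ≤ 1 + ‖1/2 - w‖ * ‖X‖ := by
    rw [← norm_smul, h1]
    refine (norm_sub_le _ _).trans ?_
    rw [norm_smul]
    have h3 : ‖ρ.U (fun z => z 0) * X‖ ≤ 1 * ‖X‖ := (norm_mul_le _ _).trans
      (mul_le_mul_of_nonneg_right (norm_Z_le ρ 0) (norm_nonneg _))
    rw [one_mul] at h3
    gcongr
    exact norm_G_le ρ
  have h4 : ‖1/2 + w‖ ^ 2 - ‖1/2 - w‖ ^ 2 = 2 * w.re := by
    rw [nsq, nsq]; simp; ring
  have h5 : ‖1/2 + w‖ + ‖1/2 - w‖ ≤ 1 + 2 * ‖w‖ := by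
    have e1 := norm_add_le (1/2:ℂ) w
    have e2 := norm_sub_le (1/2:ℂ) w
    have : ‖(1/2:ℂ)‖ = 1/2 := by norm_num
    rw [this] at e1 e2
    linarith
  rw [le_div_iff₀ hw]
  have h6 : ‖X‖ * (‖1/2 + w‖ - ‖1/2 - w‖) ≤ 1 := by linarith
  have h7 : (‖X‖ * (‖1/2 + w‖ - ‖1/2 - w‖)) * (‖1/2 + w‖ + ‖1/2 - w‖) ≤ 1 * (‖1/2 + w‖ + ‖1/2 - w‖) :=
    mul_le_mul_of_nonneg_right h6 (by positivity)
  have h8 : (‖X‖ * (‖1/2 + w‖ - ‖1/2 - w‖)) * (‖1/2 + w‖ + ‖1/2 - w‖) = ‖X‖ * (2 * w.re) := by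
    rw [← h4]; ring
  nlinarith [norm_nonneg w]

end

end Pool.Agent.Helper233.CI
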