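import Pool.Agent.Helper233.CI.Main1
set_option autoImplicit false
set_option linter.unusedSectionVars false
open Metric Set Filter Topology Complex
namespace Pool.Agent.Helper233.CI

open ComplexConjugate

lemma aux8 {a b c d : ℝ} (ha : a ≠ 0) : d * ((a * b) * (a * c)⁻¹) = d * (b * c⁻¹) := by
  rw [mul_inv]; field_simp

lemma aux9 {k w c A D : ℂ} (hD : D ≠ 0) : (k + w * c * (A * D⁻¹)) * D = k * D + w * c * A := by
  have : D⁻¹ * D = 1 := inv_mul_cancel₀ hD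
  linear_combination (w * c * A) * this

lemma aux10 {k w c y Y q : ℂ} (hb : 1 + Y * q ≠ 0) :
    (k + w * (c * (1 - y * q) / (1 + Y * q))) - k - w * c = -(w * c * (y + Y) * q) / (1 + Y * q) := by
  rw [eq_div_iff hb]
  have : c * (1 - y * q) / (1 + Y * q) * (1 + Y * q) = c * (1 - y * q) := div_mul_cancel₀ _ hb
  linear_combination w * this

lemma aux11 {k w c y Y q : ℂ} (hb : 1 + Y * q ≠ 0) (hq : q ≠ 0) :
    ((k + w * (c * (1 - y * q) / (1 + Y * q))) - k) * Y + w * c * y =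
      -((-(w * c * (y + Y) * q) / (1 + Y * q)) * q⁻¹) := by
  have h1 : -((-(w * c * (y + Y) * q) / (1 + Y * q)) * q⁻¹) = (w * c * (y + Y)) / (1 + Y * q) := by
    have : q * q⁻¹ = 1 := mul_inv_cancel₀ hq
    rw [div_eq_mul_inv, div_eq_mul_inv]
    linear_combination (w * c * (y + Y) * (1 + Y * q)⁻¹) * this
  rw [h1, eq_div_iff hb]
  have : c * (1 - y * q) / (1 + Y * q) * (1 + Y * q) = c * (1 - y * q) := div_mul_cancel₀ _ hb
  linear_combination (w * Y) * this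

lemma den_pos {l x : ℂ} (hl : ‖l‖ < 1) (hx : ‖x‖ ≤ 1) : 1 - conj l * x ≠ 0 := by
  intro h
  have h1 : conj l * x = 1 := (sub_eq_zero.1 h).symm
  have h2 : ‖conj l * x‖ = 1 := by rw [h1, norm_one]
  rw [norm_mul, RCLike.norm_conj] at h2
  nlinarith [norm_nonneg l, norm_nonneg x]

/-- the function `φ` -/
noncomputable def phi (l : ℂ) (a : ℝ) : E → ℂ := fun z => (a:ℂ) * z 1 * (1 - conj l * z 0)⁻¹

lemma BA.phi {l : ℂ} (hl : ‖l‖ < 1) (a : ℝ) : BA (phi l a) := by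
  unfold CI.phi
  apply ((BA.const (a:ℂ)).mul (BA.coord 1)).mul
  apply ((BA.const 1).sub ((BA.const _).mul (BA.coord 0))).inv
  intro z hz
  exact den_pos hl (norm_coord_le hz 0)

lemma coord_sq {z : E} (hz : z ∈ closedBall (0:E) 1) : ‖z 0‖ ^ 2 + ‖z 1‖ ^ 2 ≤ 1 := by
  rw [mem_closedBall_zero_iff] at hz
  have := EuclideanSpace.norm_sq_eq z
  rw [Fin.sum_univ_two] at this
  rw [← this]
  nlinarith [norm_nonneg z]

lemma aux7 {X p r : ℝ} (hX : X ≠ 0) : 1 - p * X⁻¹ - r * X⁻¹ = (X - p - r) * X⁻¹ := by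
  field_simp

lemma phi_sq {l : ℂ} (hl : ‖l‖ < 1) {a : ℝ} (ha : a ^ 2 = 1 - ‖l‖ ^ 2) {z : E} (hz : z ∈ closedBall (0:E) 1) :
    ‖phi l a z‖ ^ 2 ≤ 1 - (‖z 0 - l‖ * ‖1 - conj l * z 0‖⁻¹) ^ 2 := by
  have h1 := den_pos hl (norm_coord_le hz 0)
  have h2 : 0 < ‖1 - conj l * z 0‖ := norm_pos_iff.2 h1
  have h3 := moeb l (z 0)
  have h4 := coord_sq hz
  have h5 : ‖phi l a z‖ ^ 2 = a ^ 2 * ‖z 1‖ ^ 2 * (‖1 - conj l * z 0‖ ^ 2)⁻¹ := by
    unfold phi
    rw [norm_mul, norm_mul, norm_inv, Complex.norm_real, Real.norm_eq_abs, mul_pow, mul_pow, sq_abs, inv_pow]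
  rw [h5, mul_pow, inv_pow]
  have h6 : 0 < ‖1 - conj l * z 0‖ ^ 2 := by positivity
  rw [← sub_nonneg]
  have h7 : 1 - ‖z 0 - l‖ ^ 2 * (‖1 - conj l * z 0‖ ^ 2)⁻¹ - a ^ 2 * ‖z 1‖ ^ 2 * (‖1 - conj l * z 0‖ ^ 2)⁻¹ =
      (‖1 - conj l * z 0‖ ^ 2 - ‖z 0 - l‖ ^ 2 - a ^ 2 * ‖z 1‖ ^ 2) * (‖1 - conj l * z 0‖ ^ 2)⁻¹ := aux7 h6.ne'
  rw [h7, h3, ← ha]
  apply mul_nonneg _ (by positivity)
  nlinarith [sq_nonneg a]

lemma phi_le_one {l : ℂ} (hl : ‖l‖ < 1) {a : ℝ} (ha : a ^ 2 = 1 - ‖l‖ ^ 2) {z : E} (hz : z ∈ closedBall (0:E) 1) :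
    ‖phi l a z‖ ≤ 1 := by
  have := phi_sq hl ha hz
  have h2 := sq_nonneg (‖z 0 - l‖ * ‖1 - conj l * z 0‖⁻¹)
  nlinarith [norm_nonneg (phi l a z)]

lemma re_ge {y q : ℂ} {R R' : ℝ} (hR : 1 ≤ R) (hRR' : R < R') (hR' : R' ≤ 2 * R) (hy : ‖y‖ = R)
    (hre : y.re ≤ -(R' - R) / 16) (hq : ‖q‖ ≤ R'⁻¹) :
    1 + conj y * q ≠ 0 ∧ ((R' - R) / R) ^ 2 / 64 ≤ ((-(conj y) / R) * (1 - y * q) / (1 + conj y * q)).re := by
  have hR0 : 0 < R := by linarith
  have hR'0 : 0 < R' := by linarith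
  set s : ℝ := R / R' with hs
  have hs0 : 0 < s := by positivity
  have hs1 : s < 1 := by rw [hs, div_lt_one hR'0]; exact hRR'
  have hyq : ‖conj y * q‖ ≤ s := by
    rw [norm_mul, RCLike.norm_conj, hy, hs, div_eq_mul_inv]
    gcongr
  have hne : 1 + conj y * q ≠ 0 := by
    intro h
    have h1 : conj y * q = -1 := by linear_combination h
    rw [h1, norm_neg, norm_one] at hyq
    linarith
  refine ⟨hne, ?_⟩
  have hn0 : 0 < ‖1 + conj y * q‖ := norm_pos_iff.2 hne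
  have hn1 : ‖1 + conj y * q‖ ≤ 1 + s := by
    refine (norm_add_le _ _).trans ?_
    rw [norm_one]; gcongr
  have h1 : (-(conj y) / R) * (1 - y * q) / (1 + conj y * q) =
      ((R⁻¹ * (‖1 + conj y * q‖ ^ 2)⁻¹ : ℝ) : ℂ) * (-(conj y) * (1 - y * q) * conj (1 + conj y * q)) := by
    have h2 : (1 + conj y * q) * conj (1 + conj y * q) = ((‖1 + conj y * q‖ ^ 2 : ℝ) : ℂ) := by
      rw [Complex.mul_conj, Complex.normSq_eq_norm_sq]
    have h3 : ((‖1 + conj y * q‖ ^ 2 : ℝ) : ℂ) ≠ 0 := by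
      rw [Complex.ofReal_ne_zero]; positivity
    have hRc : (R:ℂ) ≠ 0 := by rw [Complex.ofReal_ne_zero]; positivity
    rw [Complex.ofReal_mul, Complex.ofReal_inv, Complex.ofReal_inv, ← h2]
    rw [← h2] at h3
    have h4 := right_ne_zero_of_mul h3
    field_simp
  rw [h1, Complex.re_ofReal_mul, re_omega, hy]
  have h5 : R ^ 2 * ‖q‖ ^ 2 ≤ s ^ 2 := by
    rw [← mul_pow]
    apply pow_le_pow_left₀ (by positivity)
    rw [hs, div_eq_mul_inv]; gcongr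
  have h6 : (1 - s) / 2 ≤ (‖1 + conj y * q‖ ^ 2)⁻¹ * (1 - R ^ 2 * ‖q‖ ^ 2) := by
    have h7 : ((1 + s) ^ 2)⁻¹ ≤ (‖1 + conj y * q‖ ^ 2)⁻¹ := by
      apply inv_anti₀ (by positivity)
      gcongr
    calc (1 - s) / 2 ≤ ((1 + s) ^ 2)⁻¹ * (1 - s ^ 2) := by
          have : ((1 + s) ^ 2)⁻¹ * (1 - s ^ 2) = (1 - s) / (1 + s) := by
            have : 1 + s ≠ 0 := by positivity
            field_simp; try ring
          rw [this]
          apply div_le_div_of_nonneg_left (by linarith) (by linarith) (by linarith)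
      _ ≤ (‖1 + conj y * q‖ ^ 2)⁻¹ * (1 - s ^ 2) := by
          apply mul_le_mul_of_nonneg_right h7
          nlinarith
      _ ≤ _ := by
          apply mul_le_mul_of_nonneg_left _ (by positivity)
          linarith
  have h8 : (R' - R) / R / 2 ≤ 1 - s := by
    rw [hs, div_div, ← sub_nonneg]
    have : 1 - R / R' - (R' - R) / (R * 2) = (R' - R) * (2 * R - R') / (2 * R * R') := by
      field_simp; try ring
    rw [this]
    apply div_nonneg _ (by positivity)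
    apply mul_nonneg <;> linarith
  have h9 : (R' - R) / R / 16 ≤ R⁻¹ * (-y.re) := by
    have : (R' - R) / R / 16 = R⁻¹ * ((R' - R) / 16) := by field_simp
    rw [this]
    apply mul_le_mul_of_nonneg_left _ (by positivity)
    linarith
  have h10 : 0 ≤ (R' - R) / R := div_nonneg (by linarith) hR0.le
  calc ((R' - R) / R) ^ 2 / 64 = ((R' - R) / R / 16) * ((R' - R) / R / 4) := by ring
    _ ≤ (R⁻¹ * (-y.re)) * ((‖1 + conj y * q‖ ^ 2)⁻¹ * (1 - R ^ 2 * ‖q‖ ^ 2)) := by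
        apply mul_le_mul h9 _ (by positivity) (le_trans (by positivity) h9)
        linarith
    _ = _ := by ring

section
variable {B : Type*} [NormedCommRing B] [NormedAlgebra ℂ B] [CompleteSpace B]
variable {ρ : Rep B} {f : E → ℂ}

theorem Good.phi_pow (h : Good ρ f) {R R' : ℝ} (hR : 1 ≤ R) (hRR' : R < R') (hR' : R' ≤ 2 * R) {y : ℂ} (hy : ‖y‖ = R)
    (hre : y.re ≤ -(R' - R) / 16) {M : ℝ} (hMw : ∀ w : ℂ, ‖w‖ ≤ R' → ‖Th (QQ ρ) w‖ ≤ M)
    {l : ℂ} (hl : l * (2 * y - 1) = 2 * y + 1) (hl1 : ‖l‖ < 1) {a : ℝ} (ha : a ^ 2 = 1 - ‖l‖ ^ 2) (n : ℕ) :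
    ‖ρ.U (phi l a) ^ n‖ ≤ 1 ∧ ‖ρ.U (phi l a) ^ n‖ ≤ M * ((1 + ((R' - R) / R) ^ 4 / 8192) ^ n)⁻¹ := by
  have hR0 : 0 < R := by linarith
  have hR'0 : 0 < R' := by linarith
  have hyre : y.re < 0 := by
    have : -(R' - R) / 16 < 0 := by linarith
    linarith
  have hφ := BA.phi hl1 a
  set δ : ℝ := (R' - R) / R with hδ
  have hδ0 : 0 < δ := div_pos (by linarith) hR0
  have hδ1 : δ ≤ 1 := by rw [hδ, div_le_one hR0]; linarith
  set w0 : ℝ := δ ^ 2 / 64 with hw0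
  have hw00 : 0 < w0 := by positivity
  have hw01 : w0 ≤ 1 := by rw [hw0]; nlinarith
  set c : ℂ := -(conj y) / R with hc
  have hcn : ‖c‖ = 1 := by
    rw [hc, norm_div, norm_neg, RCLike.norm_conj, hy, Complex.norm_real, Real.norm_of_nonneg hR0.le, div_self hR0.ne']
  refine ⟨?_, ?_⟩
  · rw [← ρ.pow hφ]
    apply ρ.bd _ (hφ.pow n)
    intro z hz
    rw [norm_pow]
    exact pow_le_one₀ (norm_nonneg _) (phi_le_one hl1 ha hz)
  -- the function k
  have hyn : (1/2:ℂ) - y ≠ 0 := by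
    intro h0
    have := congrArg Complex.re h0
    simp at this
    linarith
  have hynn : 0 < ‖(1/2:ℂ) - y‖ := norm_pos_iff.2 hyn
  have hafA : ∀ z : E, aff (1/2 + y) (1/2 - y) z = (1/2 - y) * (z 0 - l) := by
    intro z
    unfold aff
    linear_combination (-(1/2)) * hl
  have hlc : conj l * (2 * conj y - 1) = 2 * conj y + 1 := by
    have := congrArg conj hl
    simpa [Complex.conj_ofNat] using this
  have hafD : ∀ z : E, aff (1/2 - conj y) (1/2 + conj y) z = (1/2 - conj y) * (1 - conj l * z 0) := by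
    intro z
    unfold aff
    linear_combination (-(1/2) * z 0) * hlc
  have hconjn : ‖(1/2:ℂ) - conj y‖ = ‖(1/2:ℂ) - y‖ := by
    have : (1/2:ℂ) - conj y = conj (1/2 - y) := by simp [Complex.conj_ofNat]
    rw [this, RCLike.norm_conj]
  have hDne : ∀ z ∈ closedBall (0:E) 1, aff (1/2 - conj y) (1/2 + conj y) z ≠ 0 := by
    intro z hz
    rw [hafD]
    apply mul_ne_zero
    · rw [← norm_pos_iff, hconjn]; exact hynn
    · exact den_pos hl1 (norm_coord_le hz 0)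
  set kf : E → ℂ := fun z => (1 - (w0:ℂ) ^ 2 / 2) +
    ((w0:ℂ) * c) * (aff (1/2 + y) (1/2 - y) z * (aff (1/2 - conj y) (1/2 + conj y) z)⁻¹) with hkf
  have hkfBA : BA kf := (BA.const _).add ((BA.const _).mul ((BA.aff _ _).mul ((BA.aff _ _).inv hDne)))
  have hkfn : ∀ z ∈ closedBall (0:E) 1, ‖kf z‖ ≤ 1 - w0 ^ 2 / 2 + w0 * (‖z 0 - l‖ * ‖1 - conj l * z 0‖⁻¹) := by
    intro z hz
    rw [hkf]
    refine (norm_add_le _ _).trans ?_
    have e1 : ‖(1 - (w0:ℂ) ^ 2 / 2)‖ = 1 - w0 ^ 2 / 2 := by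
      have : (1 - (w0:ℂ) ^ 2 / 2) = ((1 - w0 ^ 2 / 2 : ℝ) : ℂ) := by push_cast; ring
      rw [this, Complex.norm_real, Real.norm_of_nonneg]
      nlinarith
    rw [e1, norm_mul, norm_mul, hcn, mul_one, Complex.norm_real, Real.norm_of_nonneg hw00.le, norm_mul, norm_inv,
      hafA, hafD, norm_mul, norm_mul, hconjn, aux8 hynn.ne']
  have hkφ : ∀ z ∈ closedBall (0:E) 1, ‖kf z * phi l a z‖ ≤ 1 := by
    intro z hz
    rw [norm_mul]
    have e1 := phi_sq hl1 ha hz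
    set s : ℝ := ‖z 0 - l‖ * ‖1 - conj l * z 0‖⁻¹ with hs
    have hs0 : 0 ≤ s := by positivity
    have hs1 : s ≤ 1 := by nlinarith [sq_nonneg ‖phi l a z‖]
    calc ‖kf z‖ * ‖phi l a z‖ ≤ (1 - w0 ^ 2 / 2 + w0 * s) * ‖phi l a z‖ :=
          mul_le_mul_of_nonneg_right (hkfn z hz) (norm_nonneg _)
      _ ≤ 1 := kphi hw00.le hw01 hs0 hs1 (norm_nonneg _) e1
  -- algebra elements
  set G : B := ρ.U (aff (1/2) (1/2)) with hG
  set N : B := ρ.U (aff (-1) 1) with hN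
  set D : B := ρ.U (aff (1/2 - conj y) (1/2 + conj y)) with hD
  set A : B := ρ.U (aff (1/2 + y) (1/2 - y)) with hA
  have hDL : D = G + (conj y) • N := by
    rw [hD, hG, hN, U_aff, U_aff, U_aff]; module
  have hAL : A = G - y • N := by
    rw [hA, hG, hN, U_aff, U_aff, U_aff]; module
  have hDu : IsUnit D := h.isUnit_aff (by ring_nf; norm_num)
  have hkD : ρ.U kf * D = (1 - (w0:ℂ) ^ 2 / 2) • D + ((w0:ℂ) * c) • A := by
    rw [hD, hA, ← ρ.mul _ _ hkfBA (BA.aff _ _), ← ρ.smul (BA.aff _ _), ← ρ.smul (BA.aff _ _),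
      ← ρ.add _ _ ((BA.const _).mul (BA.aff _ _)) ((BA.const _).mul (BA.aff _ _))]
    apply ρ.congr (hkfBA.mul (BA.aff _ _)) (((BA.const _).mul (BA.aff _ _)).add ((BA.const _).mul (BA.aff _ _)))
    intro z hz
    exact aux9 (hDne z hz)
  set kh : ℂ → ℂ := fun q => (1 - (w0:ℂ) ^ 2 / 2) + (w0:ℂ) * (c * (1 - y * q) / (1 + conj y * q)) with hkh
  have hnb : ∀ q : ℂ, ‖q‖ ≤ R'⁻¹ → 1 + conj y * q ≠ 0 := fun q hq => (re_ge hR hRR' hR' hy hre hq).1
  have hkh1 : ∀ q, ‖q‖ ≤ R'⁻¹ → 1 + δ ^ 4 / 8192 ≤ ‖kh q‖ := by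
    intro q hq
    have e1 := (re_ge hR hRR' hR' hy hre hq).2
    refine le_trans ?_ (Complex.re_le_norm _)
    rw [hkh]
    simp only [add_re]
    rw [Complex.re_ofReal_mul]
    have e2 : (1 - (w0:ℂ) ^ 2 / 2).re = 1 - w0 ^ 2 / 2 := by
      have : (1 - (w0:ℂ) ^ 2 / 2) = ((1 - w0 ^ 2 / 2 : ℝ) : ℂ) := by push_cast; ring
      rw [this, Complex.ofReal_re]
    rw [e2]
    have e3 : w0 * w0 ≤ w0 * (c * (1 - y * q) / (1 + conj y * q)).re := mul_le_mul_of_nonneg_left e1 hw00.le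
    have e4 : w0 ^ 2 / 2 = δ ^ 4 / 8192 := by rw [hw0]; ring
    nlinarith
  have hkhd : DifferentiableOn ℂ kh (closedBall 0 R'⁻¹) := by
    intro q hq
    have hq' : ‖q‖ ≤ R'⁻¹ := by simpa using hq
    have e1 : DifferentiableAt ℂ (fun q : ℂ => c * (1 - y * q)) q := by fun_prop
    have e2 : DifferentiableAt ℂ (fun q : ℂ => 1 + conj y * q) q := by fun_prop
    exact (((e1.fun_div e2 (hnb q hq')).const_mul _).const_add _).differentiableWithinAt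
  have hex := exists_J (Th_diff h.hu) (by simp [Th]) (r := R'⁻¹) (M := M) (κ := δ ^ 4 / 8192) (by positivity) (by positivity)
    (by rw [inv_inv]; exact hMw) hkhd hkh1 (kB := ρ.U kf)
    (H := fun q => (-((w0:ℂ) * c * (y + conj y) * q) / (1 + conj y * q)) • (G * Ring.inverse D))
    (by
      intro q hq
      have hq' : ‖q‖ ≤ R'⁻¹ := by simpa using hq
      have e1 : DifferentiableAt ℂ (fun q : ℂ => -((w0:ℂ) * c * (y + conj y) * q)) q := by fun_prop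
      have e2 : DifferentiableAt ℂ (fun q : ℂ => 1 + conj y * q) q := by fun_prop
      exact ((e1.fun_div e2 (hnb q hq')).smul_const _).differentiableWithinAt)
    (by simp)
    (by
      intro q hq
      have hq0 : q ≠ 0 := by
        rw [← norm_pos_iff, hq]; positivity
      have hb := hnb q hq.le
      have e3 : Th (QQ ρ) q⁻¹ * LL ρ q⁻¹ = G := h.Th_L q⁻¹
      have e4 : LL ρ q⁻¹ = G - q⁻¹ • N := LL_eq q⁻¹
      have e5 : kh q • D - ρ.U kf * D = (-((w0:ℂ) * c * (y + conj y) * q) / (1 + conj y * q)) • LL ρ q⁻¹ := by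
        rw [hkD, e4, hDL, hAL]
        have f1 : kh q - (1 - (w0:ℂ) ^ 2 / 2) - (w0:ℂ) * c = -((w0:ℂ) * c * (y + conj y) * q) / (1 + conj y * q) := by
          exact aux10 hb
        have f2 : (kh q - (1 - (w0:ℂ) ^ 2 / 2)) * conj y + (w0:ℂ) * c * y =
            -((-((w0:ℂ) * c * (y + conj y) * q) / (1 + conj y * q)) * q⁻¹) := by
          exact aux11 hb hq0
        have f3 : kh q • (G + conj y • N) - ((1 - (w0:ℂ) ^ 2 / 2) • (G + conj y • N) + ((w0:ℂ) * c) • (G - y • N)) =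
            (kh q - (1 - (w0:ℂ) ^ 2 / 2) - (w0:ℂ) * c) • G +
            ((kh q - (1 - (w0:ℂ) ^ 2 / 2)) * conj y + (w0:ℂ) * c * y) • N := by module
        rw [f3, f1, f2]; module
      have e6 : (kh q • Th (QQ ρ) q⁻¹ - ρ.U kf * Th (QQ ρ) q⁻¹) * D =
          (-((w0:ℂ) * c * (y + conj y) * q) / (1 + conj y * q)) • G := by
        calc (kh q • Th (QQ ρ) q⁻¹ - ρ.U kf * Th (QQ ρ) q⁻¹) * D =
            Th (QQ ρ) q⁻¹ * (kh q • D - ρ.U kf * D) := by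
              rw [sub_mul, mul_sub, smul_mul_assoc, mul_smul_comm]; ring
          _ = _ := by rw [e5, mul_smul_comm, e3]
      calc kh q • Th (QQ ρ) q⁻¹ - ρ.U kf * Th (QQ ρ) q⁻¹ =
          ((kh q • Th (QQ ρ) q⁻¹ - ρ.U kf * Th (QQ ρ) q⁻¹) * D) * Ring.inverse D := by
            rw [mul_assoc, Ring.mul_inverse_cancel _ hDu, mul_one]
        _ = _ := by rw [e6, smul_mul_assoc])
    n
  obtain ⟨J, hJ1, hJ2⟩ := hex
  have e7 : ρ.U (phi l a) ^ n = ρ.U (fun z => (kf z * phi l a z) ^ n) * J := by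
    rw [ρ.pow (hkfBA.mul hφ), ρ.mul _ _ hkfBA hφ, mul_pow]
    calc ρ.U (phi l a) ^ n = ρ.U (phi l a) ^ n * (ρ.U kf ^ n * J) := by rw [hJ1, mul_one]
      _ = _ := by ring
  rw [e7]
  refine (norm_mul_le _ _).trans ?_
  have e8 : ‖ρ.U (fun z => (kf z * phi l a z) ^ n)‖ ≤ 1 := by
    apply ρ.bd _ ((hkfBA.mul hφ).pow n)
    intro z hz
    rw [norm_pow]
    exact pow_le_one₀ (norm_nonneg _) (hkφ z hz)
  calc _ ≤ 1 * ‖J‖ := mul_le_mul_of_nonneg_right e8 (norm_nonneg _)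
    _ ≤ _ := by rw [one_mul]; exact hJ2

end

end Pool.Agent.Helper233.CI
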