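import Pool.Agent.Helper233.CI.Main2
import Pool.Agent.Helper233.CI.Gleason
import Pool.Agent.Helper233.CI.GleasonBd
set_option autoImplicit false
set_option linter.unusedSectionVars false
open Metric Set Filter Topology Complex
namespace Pool.Agent.Helper233.CI

open ComplexConjugate

/-- the point `(l, a ζ)` -/
noncomputable def pt (l : ℂ) (a : ℝ) (ζ : ℂ) : E := WithLp.toLp 2 ![l, (a:ℂ) * ζ]

lemma pt0 (l : ℂ) (a : ℝ) (ζ : ℂ) : pt l a ζ 0 = l := rfl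
lemma pt1 (l : ℂ) (a : ℝ) (ζ : ℂ) : pt l a ζ 1 = (a:ℂ) * ζ := rfl

lemma pt_sq (l : ℂ) (a : ℝ) (ζ : ℂ) : ‖pt l a ζ‖ ^ 2 = ‖l‖ ^ 2 + a ^ 2 * ‖ζ‖ ^ 2 := by
  rw [EuclideanSpace.norm_sq_eq, Fin.sum_univ_two, pt0, pt1, norm_mul, mul_pow, Complex.norm_real, Real.norm_eq_abs, sq_abs]

lemma pt_norm {l : ℂ} {a κ : ℝ} (ha : 0 < a) (ha2 : a ^ 2 = 1 - ‖l‖ ^ 2) (hκ : 0 < κ) (hκ1 : κ ≤ 1) {ζ : ℂ}
    (hζ : ‖ζ‖ ≤ 1 - κ / 8) : ‖pt l a ζ‖ < 1 ∧ a ^ 2 * κ / 16 ≤ 1 - ‖pt l a ζ‖ := by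
  have h1 := pt_sq l a ζ
  have h2 : ‖ζ‖ ^ 2 ≤ 1 - κ / 8 := by nlinarith [norm_nonneg ζ]
  have h3 : ‖pt l a ζ‖ ^ 2 ≤ 1 - a ^ 2 * κ / 8 := by
    rw [h1]
    nlinarith [sq_nonneg a]
  have h4 : 0 < a ^ 2 * κ := by positivity
  have h5 : ‖pt l a ζ‖ < 1 := by nlinarith [norm_nonneg (pt l a ζ)]
  refine ⟨h5, ?_⟩
  nlinarith [norm_nonneg (pt l a ζ)]

section
variable {B : Type*} [NormedCommRing B] [NormedAlgebra ℂ B] [CompleteSpace B]
variable {ρ : Rep B} {f : E → ℂ}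

/-- evaluation of a polynomial in `(z, ζ)` -/
noncomputable def qe (ρ : Rep B) (l : ℂ) (a : ℝ) (P : MvPolynomial (Fin 2 ⊕ Fin 2) ℂ) (ζ : ℂ) : B :=
  MvPolynomial.aeval (Sum.elim (fun i => ρ.U (fun z => z i)) (fun i => algebraMap ℂ B (pt l a ζ i))) P

lemma qe_diff (ρ : Rep B) (l : ℂ) (a : ℝ) (P : MvPolynomial (Fin 2 ⊕ Fin 2) ℂ) :
    Differentiable ℂ (qe ρ l a P) := by
  unfold qe
  induction P using MvPolynomial.induction_on with
  | C a => simp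
  | add p q hp hq => simp only [map_add]; exact hp.add hq
  | mul_X p i hp =>
    simp only [map_mul, MvPolynomial.aeval_X]
    apply hp.mul
    rcases i with i | i
    · simp
    · simp only [Sum.elim_inr, Algebra.algebraMap_eq_smul_one]
      fin_cases i
      · simp [pt0]
      · simp [pt1]; fun_prop

lemma qe_U (ρ : Rep B) (l : ℂ) (a : ℝ) (P : MvPolynomial (Fin 2 ⊕ Fin 2) ℂ) (ζ : ℂ) :
    BA (fun z => MvPolynomial.eval (Sum.elim (fun i => z i) (fun i => pt l a ζ i)) P) ∧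
    qe ρ l a P ζ = ρ.U (fun z => MvPolynomial.eval (Sum.elim (fun i => z i) (fun i => pt l a ζ i)) P) := by
  unfold qe
  induction P using MvPolynomial.induction_on with
  | C c => simpa using ⟨BA.const c, (ρ.const c).symm⟩
  | add p q hp hq =>
    simp only [map_add]
    refine ⟨hp.1.add hq.1, ?_⟩
    rw [ρ.add _ _ hp.1 hq.1, hp.2, hq.2]
  | mul_X p i hp =>
    simp only [map_mul, MvPolynomial.aeval_X, MvPolynomial.eval_X]
    rcases i with i | i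
    · simp only [Sum.elim_inl]
      refine ⟨hp.1.mul (BA.coord i), ?_⟩
      rw [ρ.mul _ _ hp.1 (BA.coord i), hp.2]
    · simp only [Sum.elim_inr]
      refine ⟨hp.1.mul (BA.const _), ?_⟩
      rw [ρ.mul _ _ hp.1 (BA.const _), hp.2, ρ.const]

theorem Good.T_bound (h : Good ρ f) {l : ℂ} (hl1 : ‖l‖ < 1) {a : ℝ} (ha : 0 < a)
    (ha2 : a ^ 2 = 1 - ‖l‖ ^ 2) {κ M : ℝ} (hκ : 0 < κ) (hκ1 : κ ≤ 1) (hM : 1 ≤ M)
    (hp1 : ∀ n : ℕ, ‖ρ.U (phi l a) ^ n‖ ≤ 1) (hp2 : ∀ n : ℕ, ‖ρ.U (phi l a) ^ n‖ ≤ M * ((1 + κ) ^ n)⁻¹)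
    {m : ℝ} (hm : 0 < m) (hm1 : ∀ ζ : ℂ, ‖ζ‖ ≤ 1 - κ / 8 → m ≤ ‖f (pt l a ζ)‖)
    {Mf : ℝ} (hMf : ∀ z ∈ closedBall (0:E) 1, ‖f z‖ ≤ Mf) :
    ‖Ring.inverse (ρ.U (aff (-l) 1))‖ ≤
      2 * ((2 / m) * (8 * √M / κ) * ((1 + 1 / a) * (44 * (Mf + 1) / (a ^ 2 * κ / 16) ^ 2))) := by
  set c : ℝ := 1 - κ / 8 with hc
  have hc0 : 0 < c := by rw [hc]; linarith
  have hc1 : c < 1 := by rw [hc]; linarith
  set S : ℝ := 8 * √M / κ with hS
  have hS0 : 0 < S := by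
    have : 0 < √M := Real.sqrt_pos.2 (by linarith)
    rw [hS]; positivity
  set K : ℝ := 2 / m with hK
  have hK0 : 0 < K := by positivity
  have hMf0 : 0 ≤ Mf := (norm_nonneg _).trans (hMf 0 (by simp))
  -- choose the polynomial
  set δ : ℝ := min (m / 2) (min 1 (1 / (2 * (K * S)))) with hδ
  have hδ0 : 0 < δ := by rw [hδ]; positivity
  have hδm : δ ≤ m / 2 := min_le_left _ _
  have hδ1 : δ ≤ 1 := (min_le_right _ _).trans (min_le_left _ _)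
  have hδK : δ ≤ 1 / (2 * (K * S)) := (min_le_right _ _).trans (min_le_right _ _)
  obtain ⟨P, hP⟩ := dens f h.hf.1 h.hf.2 hδ0
  obtain ⟨γ, hγ1, hγ2⟩ := gleason_poly P
  have hPM : ∀ z ∈ closedBall (0:E) 1, ‖MvPolynomial.eval (fun i => z i) P‖ ≤ Mf + 1 := by
    intro z hz
    calc ‖MvPolynomial.eval (fun i => z i) P‖ = ‖f z - (f z - MvPolynomial.eval (fun i => z i) P)‖ := by rw [sub_sub_cancel]
      _ ≤ Mf + δ := (norm_sub_le _ _).trans (add_le_add (hMf z hz) (hP z hz))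
      _ ≤ _ := by linarith
  set g : ℂ → ℂ := fun ζ => MvPolynomial.eval (fun i => pt l a ζ i) P with hg
  have hpt : ∀ ζ : ℂ, ‖ζ‖ ≤ c → ‖pt l a ζ‖ < 1 ∧ a ^ 2 * κ / 16 ≤ 1 - ‖pt l a ζ‖ := fun ζ hζ =>
    pt_norm ha ha2 hκ hκ1 hζ
  have hgm : ∀ ζ : ℂ, ‖ζ‖ ≤ c → m / 2 ≤ ‖g ζ‖ := by
    intro ζ hζ
    have e1 := hP (pt l a ζ) (by rw [mem_closedBall_zero_iff]; exact (hpt ζ hζ).1.le)
    have e2 := hm1 ζ hζ
    have e3 : ‖f (pt l a ζ)‖ ≤ ‖g ζ‖ + ‖f (pt l a ζ) - g ζ‖ := by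
      have := norm_add_le (g ζ) (f (pt l a ζ) - g ζ)
      rwa [add_sub_cancel] at this
    linarith
  have hg0 : ∀ ζ : ℂ, ‖ζ‖ ≤ c → g ζ ≠ 0 := by
    intro ζ hζ h0
    have := hgm ζ hζ
    rw [h0, norm_zero] at this; linarith
  have hgi : ∀ ζ : ℂ, ‖ζ‖ ≤ c → ‖(g ζ)⁻¹‖ ≤ K := by
    intro ζ hζ
    rw [norm_inv, hK, ← inv_div]
    exact inv_anti₀ (by positivity) (hgm ζ hζ)
  have hgd : Differentiable ℂ g := by
    rw [hg]
    clear_value g
    clear hg hgm hg0 hgi hP hPM hγ1 hγ2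
    induction P using MvPolynomial.induction_on with
    | C a => simp
    | add p q hp hq => simp only [map_add]; exact hp.add hq
    | mul_X p i hp =>
      simp only [map_mul, MvPolynomial.eval_X]
      apply hp.mul
      fin_cases i
      · simp [pt0]
      · simp [pt1]; fun_prop
  -- algebra elements
  set Z0 : B := ρ.U (fun z => z 0) with hZ0
  set Z1 : B := ρ.U (fun z => z 1) with hZ1
  set Φ : B := ρ.U (phi l a) with hΦ
  set hh : B := ρ.U (fun z => MvPolynomial.eval (fun i => z i) P) with hhh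
  have hhn : ‖hh‖ ≤ δ := by
    have e1 := ρ.bd _ (h.hf.sub (BA.poly P)) δ hP
    rw [ρ.sub h.hf (BA.poly P), h.hU, zero_sub, norm_neg] at e1
    exact e1
  have hφBA := BA.phi hl1 a
  set Dl : B := ρ.U (aff 1 (-conj l)) with hDl
  have hDl1 : Dl = 1 - conj l • Z0 := by
    rw [hDl, U_aff, hZ0]; module
  have hΦD : Φ * Dl = (a:ℂ) • Z1 := by
    rw [hΦ, hDl, hZ1, ← ρ.mul _ _ hφBA (BA.aff _ _), ← ρ.smul (BA.coord 1)]
    apply ρ.congr (hφBA.mul (BA.aff _ _)) ((BA.const _).mul (BA.coord 1))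
    intro z hz
    have e1 := den_pos hl1 (norm_coord_le hz 0)
    have e2 : aff 1 (-conj l) z = 1 - conj l * z 0 := by unfold aff; ring
    rw [e2]
    unfold phi
    rw [mul_assoc, inv_mul_cancel₀ e1, mul_one]
  have hTl : ρ.U (aff (-l) 1) = Z0 - algebraMap ℂ B l := by
    rw [U_aff, hZ0, Algebra.algebraMap_eq_smul_one]; module
  have hul : IsUnit (ρ.U (aff (-l) 1)) := by
    apply h.isUnit_aff
    intro h0
    have : l = 1 := by linear_combination -h0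
    rw [this, norm_one] at hl1; linarith
  have hΦu : ∀ w : ℂ, IsUnit (1 - w • Φ) := by
    intro w
    have e1 : 1 - w • Φ = ρ.U (fun z => 1 - w * phi l a z) := by
      rw [ρ.sub (BA.const 1) ((BA.const w).mul hφBA), ρ.smul hφBA, ρ.one]
    rw [e1]
    apply ρ.isUnit_of h.hf h.hU h.hz ((BA.const 1).sub ((BA.const w).mul hφBA))
    simp [phi, e0]
  set q : Fin 2 → ℂ → B := fun i => qe ρ l a (γ i) with hq
  have hqd : ∀ i, Differentiable ℂ (q i) := fun i => qe_diff ρ l a (γ i)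
  set bd : ℝ := 44 * (Mf + 1) / (a ^ 2 * κ / 16) ^ 2 with hbd
  have hqn : ∀ i, ∀ ζ : ℂ, ‖ζ‖ ≤ c → ‖q i ζ‖ ≤ bd := by
    intro i ζ hζ
    rw [hq]
    simp only
    rw [(qe_U ρ l a (γ i) ζ).2]
    apply ρ.bd _ (qe_U ρ l a (γ i) ζ).1
    intro z hz
    rw [hγ2]
    have e1 := gleason_bd P hPM i z (pt l a ζ) (by simpa using hz) (hpt ζ hζ).1
    refine e1.trans ?_
    rw [hbd]
    have e2 := (hpt ζ hζ).2
    have e3 : 0 < a ^ 2 * κ / 16 := by positivity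
    gcongr
  have hgl : ∀ ζ : ℂ, hh - algebraMap ℂ B (g ζ) = (Z0 - algebraMap ℂ B l) * q 0 ζ + (Z1 - algebraMap ℂ B (a * ζ)) * q 1 ζ := by
    intro ζ
    have e1 := congrArg (MvPolynomial.aeval (Sum.elim (fun i => ρ.U (fun z => z i)) (fun i => algebraMap ℂ B (pt l a ζ i)))) hγ1
    rw [map_sub, MvPolynomial.aeval_rename, MvPolynomial.aeval_rename, map_sum, Fin.sum_univ_two] at e1
    simp only [map_mul, map_sub, MvPolynomial.aeval_X, Sum.elim_inl, Sum.elim_inr, Sum.elim_comp_inl, Sum.elim_comp_inr] at e1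
    rw [← ρ.poly, pt0, pt1] at e1
    have e2 : MvPolynomial.aeval (fun i => algebraMap ℂ B (pt l a ζ i)) P = algebraMap ℂ B (g ζ) := by
      rw [hg]
      exact MvPolynomial.aeval_algebraMap_apply B (fun i => pt l a ζ i) P
    rw [e2] at e1
    exact e1
  set X : ℂ → B := fun ζ => q 0 ζ - (ζ * conj l / a) • q 1 ζ with hX
  set Y : ℂ → B := fun ζ => ((a:ℂ)⁻¹) • (Dl * q 1 ζ) with hY
  have hac : (a:ℂ) ≠ 0 := by rw [Complex.ofReal_ne_zero]; exact ha.ne'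
  have ha2c : (a:ℂ) ^ 2 = 1 - l * conj l := by
    rw [Complex.mul_conj, Complex.normSq_eq_norm_sq, ← Complex.ofReal_pow, ha2]; push_cast; ring
  have hid : ∀ ζ : ℂ, hh - (g ζ) • (1:B) = (Z0 - algebraMap ℂ B l) * X ζ + (Φ - ζ • (1:B)) * Y ζ := by
    intro ζ
    have e1 := hgl ζ
    have e2 : Z1 - algebraMap ℂ B (a * ζ) =
        ((a:ℂ)⁻¹) • (Dl * (Φ - ζ • (1:B)) - (ζ * conj l) • (Z0 - algebraMap ℂ B l)) := by
      have e3 : Dl * (Φ - ζ • (1:B)) = (a:ℂ) • Z1 - ζ • Dl := by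
        rw [mul_sub, mul_comm Dl Φ, hΦD, mul_smul_comm, mul_one]
      rw [e3, hDl1, Algebra.algebraMap_eq_smul_one, Algebra.algebraMap_eq_smul_one]
      have e4 : (a:ℂ) • Z1 - ζ • (1 - conj l • Z0) - (ζ * conj l) • (Z0 - l • (1:B)) =
          (a:ℂ) • Z1 - (ζ * (1 - l * conj l)) • (1:B) := by module
      rw [e4, ← ha2c, smul_sub, smul_smul, smul_smul, inv_mul_cancel₀ hac, one_smul]
      congr 2
      field_simp
    rw [Algebra.algebraMap_eq_smul_one (g ζ)] at e1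
    rw [e1, e2, hX, hY]
    simp only [mul_sub, sub_mul, smul_mul_assoc, mul_smul_comm, smul_sub, smul_smul, Algebra.algebraMap_eq_smul_one, mul_one, one_mul]
    have e5 : (a:ℂ)⁻¹ * (ζ * conj l) = ζ * conj l / a := by ring
    have e6 : (a:ℂ)⁻¹ * (ζ * conj l * l) = ζ * conj l / a * l := by ring
    simp only [e5, e6]
    have e7 : Dl * Φ * q 1 ζ = Φ * (Dl * q 1 ζ) := by ring
    rw [e7]
    module
  have hXd : Differentiable ℂ X := by
    rw [hX]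
    apply (hqd 0).sub
    exact Differentiable.fun_smul (by fun_prop) (hqd 1)
  have hYd : Differentiable ℂ Y := by
    rw [hY]
    exact ((hqd 1).const_mul Dl).fun_const_smul _
  have hThd := Th_diff hΦu
  have hTh0 : Th Φ 0 = 1 := by simp [Th]
  have hgc : ContinuousOn (fun ζ => (g ζ)⁻¹) (closedBall 0 c) := by
    apply hgd.continuous.continuousOn.inv₀
    intro ζ hζ
    exact hg0 ζ (by simpa using hζ)
  have hsub : sphere (0:ℂ) c ⊆ closedBall 0 c := sphere_subset_closedBall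
  have hTc : ContinuousOn (fun ζ : ℂ => Th Φ ζ⁻¹) (sphere 0 c) := by
    apply hThd.continuous.comp_continuousOn
    apply continuousOn_id.inv₀
    intro ζ hζ h0
    have h0' : ζ = 0 := h0
    rw [mem_sphere_zero_iff_norm, h0'] at hζ
    simp at hζ; linarith
  have hTb : ∀ ζ : ℂ, ‖ζ‖ = c → ‖Th Φ ζ⁻¹‖ ≤ S := by
    intro ζ hζ
    apply Th_bound hM hκ hκ1 hp1 hp2
    rw [norm_inv, hζ]
  have hXn : ∀ ζ : ℂ, ‖ζ‖ = c → ‖X ζ‖ ≤ (1 + 1 / a) * bd := by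
    intro ζ hζ
    have e1 := hqn 0 ζ hζ.le
    have e2 := hqn 1 ζ hζ.le
    rw [hX]
    refine (norm_sub_le _ _).trans ?_
    rw [norm_smul, norm_div, norm_mul, RCLike.norm_conj, hζ, Complex.norm_real, Real.norm_of_nonneg ha.le]
    have e3 : c * ‖l‖ / a ≤ 1 / a := by
      apply div_le_div_of_nonneg_right _ ha.le
      nlinarith [norm_nonneg l]
    have e4 : c * ‖l‖ / a * ‖q 1 ζ‖ ≤ 1 / a * bd := by
      apply mul_le_mul e3 e2 (norm_nonneg _) (by positivity)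
    linarith
  set Gf : B := Real.circleAverage (fun ζ => (g ζ)⁻¹ • Th Φ ζ⁻¹) 0 c with hGf
  set W : B := Real.circleAverage (fun ζ => (g ζ)⁻¹ • (Th Φ ζ⁻¹ * X ζ)) 0 c with hW
  have hc1' : ContinuousOn (fun ζ => (g ζ)⁻¹ • Th Φ ζ⁻¹) (sphere 0 c) := (hgc.mono hsub).smul hTc
  have hc2 : ContinuousOn (fun ζ => (g ζ)⁻¹ • (Th Φ ζ⁻¹ * X ζ)) (sphere 0 c) :=
    (hgc.mono hsub).smul (hTc.mul hXd.continuous.continuousOn)
  have hc3 : ContinuousOn (fun ζ => (ζ * (g ζ)⁻¹) • Y ζ) (sphere 0 c) :=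
    (continuousOn_id.mul (hgc.mono hsub)).smul hYd.continuous.continuousOn
  have hmain : hh * Gf - 1 = (Z0 - algebraMap ℂ B l) * W := by
    have e1 : Real.circleAverage (fun ζ => Th Φ ζ⁻¹) 0 c = 1 := by rw [avg_inv hThd hc0, hTh0]
    have e2 : Real.circleAverage (fun ζ => (ζ * (g ζ)⁻¹) • Y ζ) 0 c = 0 := by
      rw [avg_mean hc0]
      · simp
      · apply DifferentiableOn.fun_smul _ hYd.differentiableOn
        apply DifferentiableOn.fun_mul differentiableOn_id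
        apply hgd.differentiableOn.fun_inv
        intro ζ hζ
        exact hg0 ζ (by simpa using hζ)
    calc hh * Gf - 1 = Real.circleAverage (fun ζ => hh * ((g ζ)⁻¹ • Th Φ ζ⁻¹) - Th Φ ζ⁻¹) 0 c := by
          rw [avg_sub hc0 (f := fun ζ => hh * ((g ζ)⁻¹ • Th Φ ζ⁻¹)) (continuousOn_const.mul hc1') hTc, e1,
            avg_mul_left hh hc0 hc1']
      _ = Real.circleAverage (fun ζ => (Z0 - algebraMap ℂ B l) * ((g ζ)⁻¹ • (Th Φ ζ⁻¹ * X ζ)) - (ζ * (g ζ)⁻¹) • Y ζ) 0 c := by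
          apply avg_congr hc0
          intro ζ hζ
          have hζ0 : ζ ≠ 0 := by rw [← norm_pos_iff, hζ]; exact hc0
          have hgz := hg0 ζ hζ.le
          have f1 := hid ζ
          have f2 : (Φ - ζ • (1:B)) * Th Φ ζ⁻¹ = -(ζ • (1:B)) := by
            have f3 := Th_mul hΦu ζ⁻¹
            have f4 : Φ - ζ • (1:B) = -(ζ • (1 - ζ⁻¹ • Φ)) := by
              rw [smul_sub, smul_smul, mul_inv_cancel₀ hζ0, one_smul]; abel
            rw [f4, neg_mul, smul_mul_assoc, f3]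
          have f5 : hh * Th Φ ζ⁻¹ = (g ζ) • Th Φ ζ⁻¹ + (Z0 - algebraMap ℂ B l) * (Th Φ ζ⁻¹ * X ζ) - ζ • Y ζ := by
            have f6 : hh = (g ζ) • (1:B) + ((Z0 - algebraMap ℂ B l) * X ζ + (Φ - ζ • (1:B)) * Y ζ) := by
              rw [← f1]; abel
            calc hh * Th Φ ζ⁻¹ = ((g ζ) • (1:B) + ((Z0 - algebraMap ℂ B l) * X ζ + (Φ - ζ • (1:B)) * Y ζ)) * Th Φ ζ⁻¹ := by
                  rw [← f6]
              _ = (g ζ) • Th Φ ζ⁻¹ + (Z0 - algebraMap ℂ B l) * (Th Φ ζ⁻¹ * X ζ) +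
                    ((Φ - ζ • (1:B)) * Th Φ ζ⁻¹) * Y ζ := by
                  rw [add_mul, smul_mul_assoc, one_mul]; ring
              _ = _ := by rw [f2, neg_mul, smul_mul_assoc, one_mul]; abel
          rw [mul_smul_comm, f5, smul_sub, smul_add, smul_smul, inv_mul_cancel₀ hgz, one_smul, mul_smul_comm, smul_smul,
            mul_comm ζ]
          abel
      _ = (Z0 - algebraMap ℂ B l) * W := by
          rw [avg_sub hc0 (f := fun ζ => (Z0 - algebraMap ℂ B l) * ((g ζ)⁻¹ • (Th Φ ζ⁻¹ * X ζ)))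
            (continuousOn_const.mul hc2) hc3, e2, sub_zero, avg_mul_left _ hc0 hc2]
  have hGn : ‖Gf‖ ≤ K * S := by
    apply norm_avg_le hc0
    intro ζ hζ
    rw [norm_smul]
    exact mul_le_mul (hgi ζ hζ.le) (hTb ζ hζ) (norm_nonneg _) hK0.le
  have hWn : ‖W‖ ≤ K * S * ((1 + 1 / a) * bd) := by
    apply norm_avg_le hc0
    intro ζ hζ
    rw [norm_smul]
    calc ‖(g ζ)⁻¹‖ * ‖Th Φ ζ⁻¹ * X ζ‖ ≤ K * (S * ((1 + 1 / a) * bd)) := by
          apply mul_le_mul (hgi ζ hζ.le) _ (norm_nonneg _) hK0.le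
          exact (norm_mul_le _ _).trans (mul_le_mul (hTb ζ hζ) (hXn ζ hζ) (norm_nonneg _) hS0.le)
      _ = _ := by ring
  set T : B := Ring.inverse (ρ.U (aff (-l) 1)) with hT
  have hT1 : T * (Z0 - algebraMap ℂ B l) = 1 := by
    rw [← hTl]; exact Ring.inverse_mul_cancel _ hul
  have hT2 : T = hh * Gf * T - W := by
    have : W = T * (hh * Gf - 1) := by rw [hmain, ← mul_assoc, hT1, one_mul]
    rw [this]; ring
  have hT3 : ‖T‖ ≤ 1 / 2 * ‖T‖ + K * S * ((1 + 1 / a) * bd) := by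
    calc ‖T‖ = ‖hh * Gf * T - W‖ := by rw [← hT2]
      _ ≤ ‖hh * Gf * T‖ + ‖W‖ := norm_sub_le _ _
      _ ≤ ‖hh‖ * ‖Gf‖ * ‖T‖ + ‖W‖ := by
          gcongr
          exact (norm_mul_le _ _).trans (mul_le_mul_of_nonneg_right (norm_mul_le _ _) (norm_nonneg _))
      _ ≤ 1 / (2 * (K * S)) * (K * S) * ‖T‖ + K * S * ((1 + 1 / a) * bd) := by
          gcongr
          exact hhn.trans hδK
      _ = _ := by field_simp
  linarith

end

end Pool.Agent.Helper233.CI
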