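import Pool.Agent.Helper233.CI.Main3
set_option autoImplicit false
set_option linter.unusedSectionVars false
open Metric Set Filter Topology Complex
namespace Pool.Agent.Helper233.CI

open ComplexConjugate

lemma lam_props {y : ℂ} {R : ℝ} (hR : 1 ≤ R) (hy : ‖y‖ = R) (hre : y.re < 0) :
    ((2 * y + 1) / (2 * y - 1)) * (2 * y - 1) = 2 * y + 1 ∧ ‖(2 * y + 1) / (2 * y - 1)‖ < 1 ∧
    1 - ‖(2 * y + 1) / (2 * y - 1)‖ ^ 2 = -8 * y.re / ‖2 * y - 1‖ ^ 2 ∧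
    ‖(2 * y + 1) / (2 * y - 1) - 1‖ ≤ 1 / R ∧ 4 * R ^ 2 ≤ ‖2 * y - 1‖ ^ 2 ∧ ‖2 * y - 1‖ ^ 2 ≤ 9 * R ^ 2 := by
  have h1 := num_m y
  have h2 := num_p y
  rw [hy] at h1 h2
  have hreR : -y.re ≤ R := by
    rw [← hy]; exact (neg_le_abs _).trans (Complex.abs_re_le_norm y)
  have h3 : 4 * R ^ 2 ≤ ‖2 * y - 1‖ ^ 2 := by rw [h1]; linarith
  have h4 : ‖2 * y - 1‖ ^ 2 ≤ 9 * R ^ 2 := by rw [h1]; nlinarith
  have h5 : 2 * R ≤ ‖2 * y - 1‖ := by
    apply le_of_sq_le_sq _ (norm_nonneg _)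
    nlinarith
  have h6 : 0 < ‖2 * y - 1‖ := by linarith
  have h7 : 2 * y - 1 ≠ 0 := norm_pos_iff.1 h6
  have h8 : 1 - ‖(2 * y + 1) / (2 * y - 1)‖ ^ 2 = -8 * y.re / ‖2 * y - 1‖ ^ 2 := by
    rw [norm_div, div_pow, eq_div_iff (by positivity), sub_mul, div_mul_cancel₀ _ (by positivity), h1, h2]; ring
  have h9 : 0 < -8 * y.re / ‖2 * y - 1‖ ^ 2 := by
    apply div_pos (by linarith) (by positivity)
  refine ⟨div_mul_cancel₀ _ h7, ?_, h8, ?_, h3, h4⟩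
  · rw [← h8] at h9
    by_contra h10
    push Not at h10
    nlinarith
  · have h11 : (2 * y + 1) / (2 * y - 1) - 1 = 2 / (2 * y - 1) := by
      rw [div_sub_one h7]; congr 1; ring
    rw [h11, norm_div, div_le_div_iff₀ h6 (by linarith)]
    simp only [Complex.norm_ofNat, one_mul]
    linarith

lemma pt_dist {l : ℂ} {a : ℝ} {ζ : ℂ} (hζ : ‖ζ‖ ≤ 1) : ‖pt l a ζ - e0‖ ^ 2 ≤ ‖l - 1‖ ^ 2 + a ^ 2 := by
  rw [EuclideanSpace.norm_sq_eq, Fin.sum_univ_two]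
  have h1 : (pt l a ζ - e0) 0 = l - 1 := by simp [pt0, e0]
  have h2 : (pt l a ζ - e0) 1 = a * ζ := by simp [pt1, e0]
  rw [h1, h2, norm_mul, mul_pow, Complex.norm_real, Real.norm_eq_abs, sq_abs]
  have : ‖ζ‖ ^ 2 ≤ 1 := pow_le_one₀ (norm_nonneg _) hζ
  nlinarith [sq_nonneg a]

lemma final_num {Mf sM ε1 x a κ m : ℝ} (hMf : 0 ≤ Mf) (hsM : 0 ≤ sM) (hx : 1 ≤ x) (ha : 0 < a)
    (hκ : 0 < κ) (hm : 0 < m) (h1 : 1 / κ ≤ x) (h2 : 1 / a ≤ x) (h3 : 1 / (a ^ 2 * κ) ≤ x)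
    (h4 : 1 / m ≤ Real.exp (16 * ε1 * x))
    (h5 : (720896 * (Mf + 1)) * x ^ 4 ≤ Real.exp (ε1 * x)) :
    2 * ((2 / m) * (8 * sM / κ) * ((1 + 1 / a) * (44 * (Mf + 1) / (a ^ 2 * κ / 16) ^ 2))) ≤
      sM * Real.exp (17 * ε1 * x) := by
  have e1 : 2 * ((2 / m) * (8 * sM / κ) * ((1 + 1 / a) * (44 * (Mf + 1) / (a ^ 2 * κ / 16) ^ 2))) =
      (360448 * (Mf + 1)) * sM * ((1 / m) * (1 / κ) * (1 + 1 / a) * (1 / (a ^ 2 * κ)) ^ 2) := by
    field_simp; ring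
  rw [e1]
  have e2 : (1 / m) * (1 / κ) * (1 + 1 / a) * (1 / (a ^ 2 * κ)) ^ 2 ≤ Real.exp (16 * ε1 * x) * x * (2 * x) * x ^ 2 := by
    have : 1 + 1 / a ≤ 2 * x := by linarith
    gcongr
  calc (360448 * (Mf + 1)) * sM * ((1 / m) * (1 / κ) * (1 + 1 / a) * (1 / (a ^ 2 * κ)) ^ 2) ≤
      (360448 * (Mf + 1)) * sM * (Real.exp (16 * ε1 * x) * x * (2 * x) * x ^ 2) := by gcongr
    _ = sM * (Real.exp (16 * ε1 * x) * ((720896 * (Mf + 1)) * x ^ 4)) := by ring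
    _ ≤ sM * (Real.exp (16 * ε1 * x) * Real.exp (ε1 * x)) := by gcongr
    _ = _ := by rw [← Real.exp_add]; congr 2; ring

section
variable {B : Type*} [NormedCommRing B] [NormedAlgebra ℂ B] [CompleteSpace B]
variable {ρ : Rep B} {f : E → ℂ}

theorem Good.T2 (h : Good ρ f) (hne : ∀ z ∈ ball (0:E) 1, f z ≠ 0)
    (hft : Tendsto (fun z => Real.log ‖f z‖ * (1 - ‖z‖)) (𝓝[ball (0:E) 1] e0) (𝓝 0)) :
    ∀ ε > (0:ℝ), ∃ R0 ≥ (1:ℝ), ∀ R ≥ R0, ∀ R', R < R' → R' ≤ 2 * R → ∀ y : ℂ, ‖y‖ = R →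
      y.re ≤ -(R' - R) / 16 → ∀ M, 1 ≤ M → (∀ w : ℂ, ‖w‖ ≤ R' → ‖Th (QQ ρ) w‖ ≤ M) →
      ‖Th (QQ ρ) y‖ ≤ √M * Real.exp (ε * R * (R / (R' - R)) ^ 5) := by
  intro ε hε
  obtain ⟨Mf, hMf⟩ := (isCompact_closedBall (0:E) 1).exists_bound_of_continuousOn h.hf.1
  have hMf0 : 0 ≤ Mf := (norm_nonneg _).trans (hMf 0 (by simp))
  set ε1 : ℝ := ε / (17 * 147456) with hε1
  have hε10 : 0 < ε1 := by positivity
  -- neighbourhood
  rw [Metric.tendsto_nhdsWithin_nhds] at hft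
  obtain ⟨r0, hr0, hft⟩ := hft ε1 hε10
  -- polynomial vs exponential
  have hpe : ∃ X0 : ℝ, ∀ x ≥ X0, (720896 * (Mf + 1)) * x ^ 4 ≤ Real.exp (ε1 * x) := by
    have h1 := isLittleO_pow_exp_pos_mul_atTop 4 hε10
    have h2 := h1.bound (show (0:ℝ) < 1 / (720896 * (Mf + 1)) by positivity)
    obtain ⟨X0, hX0⟩ := eventually_atTop.1 h2
    refine ⟨max X0 0, fun x hx => ?_⟩
    have h3 := hX0 x ((le_max_left _ _).trans hx)
    have hx0 : 0 ≤ x := (le_max_right _ _).trans hx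
    rw [Real.norm_of_nonneg (by positivity), Real.norm_of_nonneg (Real.exp_pos _).le, one_div,
      le_inv_mul_iff₀ (by positivity)] at h3
    exact h3
  obtain ⟨X0, hX0⟩ := hpe
  refine ⟨max 1 (max X0 (3 / r0 ^ 2 + 1)), le_max_left _ _, ?_⟩
  intro R hR R' hRR' hR'2 y hy hre M hM hMw
  have hR1 : 1 ≤ R := (le_max_left _ _).trans hR
  have hRX : X0 ≤ R := ((le_max_left _ _).trans (le_max_right _ _)).trans hR
  have hRr : 3 / r0 ^ 2 + 1 ≤ R := ((le_max_right _ _).trans (le_max_right _ _)).trans hR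
  have hR0 : 0 < R := by linarith
  have hd0 : 0 < R' - R := by linarith
  have hyre : y.re < 0 := by
    have : -(R' - R) / 16 < 0 := by linarith
    linarith
  obtain ⟨hl, hl1, hl2, hl3, hl4, hl5⟩ := lam_props hR1 hy hyre
  set l : ℂ := (2 * y + 1) / (2 * y - 1) with hldef
  set a : ℝ := √(1 - ‖l‖ ^ 2) with ha
  have ha2 : a ^ 2 = 1 - ‖l‖ ^ 2 := by
    rw [ha, Real.sq_sqrt]
    nlinarith [norm_nonneg l]
  have ha0 : 0 < a := by
    rw [ha]; apply Real.sqrt_pos.2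
    nlinarith [norm_nonneg l]
  have ha1 : a ≤ 1 := by
    nlinarith [sq_nonneg ‖l‖]
  set u : ℝ := R / (R' - R) with hu
  have hu1 : 1 ≤ u := by rw [hu, le_div_iff₀ hd0]; linarith
  set κ : ℝ := ((R' - R) / R) ^ 4 / 8192 with hκ
  have hδu : (R' - R) / R = u⁻¹ := by rw [hu, inv_div]
  have hδ0 : 0 < (R' - R) / R := by positivity
  have hκ0 : 0 < κ := by rw [hκ]; positivity
  have hκi : 1 / κ = 8192 * u ^ 4 := by rw [hκ, hδu]; field_simp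
  have hκ1 : κ ≤ 1 := by
    have h1 : (R' - R) / R ≤ 1 := by rw [div_le_one hR0]; linarith
    have h2 : ((R' - R) / R) ^ 4 ≤ 1 := pow_le_one₀ hδ0.le h1
    rw [hκ]; linarith
  have hai : 1 / a ^ 2 ≤ 18 * R * u := by
    have h1 : 0 < ‖2 * y - 1‖ ^ 2 := by nlinarith
    rw [ha2, hl2, one_div, inv_div, div_le_iff₀ (by linarith)]
    have h2 : (R' - R) / 16 ≤ -y.re := by linarith
    have h3 : u * (R' - R) = R := by rw [hu]; field_simp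
    calc ‖2 * y - 1‖ ^ 2 ≤ 9 * R ^ 2 := hl5
      _ = 18 * R * u * (8 * ((R' - R) / 16)) := by linear_combination (-9 * R) * h3
      _ ≤ 18 * R * u * (-8 * y.re) := by
          apply mul_le_mul_of_nonneg_left _ (by positivity)
          linarith
  set x : ℝ := 147456 * R * u ^ 5 with hx
  have hu5 : 1 ≤ u ^ 5 := one_le_pow₀ hu1
  have hxR : R ≤ x := by rw [hx]; nlinarith
  have hx1 : 1 ≤ x := by linarith
  have hx2 : 1 / κ ≤ x := by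
    rw [hκi, hx]
    have : u ^ 4 ≤ u ^ 5 := pow_le_pow_right₀ hu1 (by norm_num)
    have : u ^ 4 * 1 ≤ u ^ 5 * R := mul_le_mul this hR1 zero_le_one (by positivity)
    nlinarith
  have hx3 : 1 / (a ^ 2 * κ) ≤ x := by
    have h1 : 1 / (a ^ 2 * κ) = (1 / a ^ 2) * (1 / κ) := by rw [one_div_mul_one_div]
    rw [h1, hκi]
    calc 1 / a ^ 2 * (8192 * u ^ 4) ≤ 18 * R * u * (8192 * u ^ 4) := by gcongr
      _ = x := by rw [hx]; ring
  have hx4 : 1 / a ≤ x := by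
    have h1 : 1 / a ≤ 1 / (a ^ 2 * κ) := by
      apply one_div_le_one_div_of_le (by positivity)
      calc a ^ 2 * κ ≤ a ^ 2 * 1 := by gcongr
        _ ≤ a := by nlinarith
    exact h1.trans hx3
  -- lower bound
  have hlow : ∀ ζ : ℂ, ‖ζ‖ ≤ 1 - κ / 8 → Real.exp (-(16 * ε1 * x)) ≤ ‖f (pt l a ζ)‖ := by
    intro ζ hζ
    obtain ⟨e1, e2⟩ := pt_norm ha0 ha2 hκ0 hκ1 hζ
    have hb : pt l a ζ ∈ ball (0:E) 1 := by rwa [mem_ball_zero_iff]
    have hdist : dist (pt l a ζ) e0 < r0 := by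
      rw [dist_eq_norm]
      have e3 := pt_dist (l := l) (a := a) (ζ := ζ) (by linarith)
      have e4 : a ^ 2 ≤ 2 / R := by
        rw [ha2, hl2, div_le_div_iff₀ (by nlinarith) hR0]
        have : -y.re ≤ R := by rw [← hy]; exact (neg_le_abs _).trans (Complex.abs_re_le_norm y)
        nlinarith
      have e5 : ‖l - 1‖ ^ 2 ≤ 1 / R := by
        calc ‖l - 1‖ ^ 2 ≤ (1 / R) ^ 2 := by gcongr
          _ = (1 / R) * (1 / R) := by ring
          _ ≤ (1 / R) * 1 := by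
            gcongr
            rw [div_le_one hR0]; exact hR1
          _ = 1 / R := mul_one _
      have e6 : 3 / R < r0 ^ 2 := by
        rw [div_lt_iff₀ hR0]
        have : 3 / r0 ^ 2 < R := by linarith
        rw [div_lt_iff₀ (by positivity)] at this
        linarith
      have e7 : ‖pt l a ζ - e0‖ ^ 2 < r0 ^ 2 := by
        calc ‖pt l a ζ - e0‖ ^ 2 ≤ 1 / R + 2 / R := by linarith
          _ = 3 / R := by ring
          _ < _ := e6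
      exact lt_of_pow_lt_pow_left₀ 2 hr0.le e7
    have e3 := hft hb hdist
    rw [Real.dist_eq, sub_zero] at e3
    have e4 : 0 < 1 - ‖pt l a ζ‖ := by linarith
    have e5 : -ε1 ≤ Real.log ‖f (pt l a ζ)‖ * (1 - ‖pt l a ζ‖) := (abs_lt.1 e3).1.le
    have e6 : 0 < ‖f (pt l a ζ)‖ := norm_pos_iff.2 (hne _ hb)
    rw [← Real.exp_log e6]
    apply Real.exp_le_exp.2
    have e7 : 1 / (1 - ‖pt l a ζ‖) ≤ 16 * x := by
      have h0 : 0 < a ^ 2 * κ := by positivity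
      calc 1 / (1 - ‖pt l a ζ‖) ≤ 1 / (a ^ 2 * κ / 16) := one_div_le_one_div_of_le (by positivity) e2
        _ = 16 * (1 / (a ^ 2 * κ)) := by field_simp
        _ ≤ 16 * x := by gcongr
    have e8 : -ε1 * (1 / (1 - ‖pt l a ζ‖)) ≤ Real.log ‖f (pt l a ζ)‖ := by
      rw [mul_one_div, div_le_iff₀ e4]; exact e5
    nlinarith
  have hpp := h.phi_pow hR1 hRR' hR'2 hy hre hMw hl hl1 ha2
  have hTb := h.T_bound hl1 ha0 ha2 hκ0 hκ1 hM (fun n => (hpp n).1) (fun n => (hpp n).2)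
    (Real.exp_pos _) hlow hMf
  have hfin := final_num hMf0 (Real.sqrt_nonneg M) hx1 ha0 hκ0 (Real.exp_pos (-(16 * ε1 * x))) hx2 hx4 hx3
    (by rw [one_div, ← Real.exp_neg, neg_neg]) (hX0 x (hRX.trans hxR))
  have hexp : 17 * ε1 * x = ε * R * (R / (R' - R)) ^ 5 := by
    rw [hε1, hx, ← hu]; field_simp
  rw [hexp] at hfin
  refine le_trans ?_ (hTb.trans hfin)
  -- ‖Th y‖ ≤ ‖T‖
  have hL := h.Th_L y
  have hLL : LL ρ y = (1/2 - y) • ρ.U (aff (-l) 1) := by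
    have : (1/2 + y) = (1/2 - y) * (-l) := by linear_combination (-(1/2)) * hl
    rw [LL, U_aff, U_aff, this]; module
  have hul : IsUnit (ρ.U (aff (-l) 1)) := by
    apply h.isUnit_aff
    intro h0
    have : l = 1 := by linear_combination -h0
    rw [this, norm_one] at hl1; linarith
  have hyn : 1 ≤ ‖(1/2:ℂ) - y‖ := by
    have e1 : (1/2:ℂ) - y = -(1/2) * (2 * y - 1) := by ring
    have e2 : 2 * R ≤ ‖2 * y - 1‖ := by
      apply le_of_sq_le_sq _ (norm_nonneg _)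
      nlinarith
    rw [e1, norm_mul, norm_neg]
    have : ‖(1/2:ℂ)‖ = 1/2 := by norm_num
    rw [this]; linarith
  have hyn0 : (1/2:ℂ) - y ≠ 0 := norm_pos_iff.1 (by linarith)
  have hTh : Th (QQ ρ) y = (1/2 - y)⁻¹ • (ρ.U (aff (1/2) (1/2)) * Ring.inverse (ρ.U (aff (-l) 1))) := by
    rw [← hL, hLL, mul_smul_comm, smul_mul_assoc, mul_assoc, Ring.mul_inverse_cancel _ hul, mul_one, smul_smul,
      inv_mul_cancel₀ hyn0, one_smul]
  rw [hTh, norm_smul, norm_inv]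
  have e9 : ‖ρ.U (aff (1/2) (1/2)) * Ring.inverse (ρ.U (aff (-l) 1))‖ ≤ 1 * ‖Ring.inverse (ρ.U (aff (-l) 1))‖ :=
    (norm_mul_le _ _).trans (mul_le_mul_of_nonneg_right (norm_G_le ρ) (norm_nonneg _))
  calc ‖(1/2:ℂ) - y‖⁻¹ * ‖ρ.U (aff (1/2) (1/2)) * Ring.inverse (ρ.U (aff (-l) 1))‖ ≤
      1 * (1 * ‖Ring.inverse (ρ.U (aff (-l) 1))‖) := by
        apply mul_le_mul (inv_le_one_of_one_le₀ hyn) e9 (norm_nonneg _) zero_le_one
    _ = _ := by rw [one_mul, one_mul]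

theorem Good.Q_zero (h : Good ρ f) (hne : ∀ z ∈ ball (0:E) 1, f z ≠ 0)
    (hft : Tendsto (fun z => Real.log ‖f z‖ * (1 - ‖z‖)) (𝓝[ball (0:E) 1] e0) (𝓝 0)) : QQ ρ = 0 :=
  abstract_main h.hu (C0 := 1) (h.T1) (p := 5) (by norm_num) (h.T2 hne hft)

end

end Pool.Agent.Helper233.CI
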