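import Pool.Agent.Helper233.CI.Main4
set_option autoImplicit false
set_option linter.unusedSectionVars false
open Metric Set Filter Topology Complex
namespace Pool.Agent.Helper233.CI

open ComplexConjugate

/-- closed ball as a set -/
abbrev KK : Set E := closedBall (0:E) 1

instance : CompactSpace KK := isCompact_iff_compactSpace.1 (isCompact_closedBall _ _)

/-- coordinates -/
def co (i : Fin 2) : C(KK, ℂ) := ⟨fun z => (z : E) i, by fun_prop⟩

/-- the ball algebra, as the closure of the polynomials -/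
noncomputable def PA : Subalgebra ℂ C(KK, ℂ) := (MvPolynomial.aeval (R := ℂ) co).range.topologicalClosure

instance : CompleteSpace PA := (Subalgebra.isClosed_topologicalClosure _).completeSpace_coe

lemma aeval_co (P : MvPolynomial (Fin 2) ℂ) (z : KK) :
    (MvPolynomial.aeval (R := ℂ) co P : C(KK, ℂ)) z = MvPolynomial.eval (fun i => (z : E) i) P := by
  induction P using MvPolynomial.induction_on with
  | C a => simp [algebraMap_apply]
  | add p q hp hq => simp [hp, hq]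
  | mul_X p i hp => simp [hp, co]

/-- the element of `PA` given by a ball algebra function -/
noncomputable def toA (F : E → ℂ) (hF : BA F) : PA :=
  ⟨⟨fun z => F z, continuousOn_iff_continuous_domRestrict.1 hF.1⟩, by
    change _ ∈ closure _
    rw [Metric.mem_closure_iff]
    intro ε hε
    obtain ⟨P, hP⟩ := dens F hF.1 hF.2 (half_pos hε)
    refine ⟨MvPolynomial.aeval (R := ℂ) co P, ⟨P, rfl⟩, ?_⟩
    rw [dist_eq_norm]
    refine lt_of_le_of_lt ?_ (half_lt_self hε)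
    rw [ContinuousMap.norm_le _ (by positivity)]
    intro z
    rw [ContinuousMap.sub_apply, aeval_co]
    exact hP z z.2⟩

lemma toA_apply (F : E → ℂ) (hF : BA F) (z : KK) : (toA F hF : C(KK, ℂ)) z = F z := rfl

lemma norm_toA_le {F : E → ℂ} (hF : BA F) {C : ℝ} (h : ∀ z ∈ closedBall (0:E) 1, ‖F z‖ ≤ C) : ‖toA F hF‖ ≤ C := by
  have hC : 0 ≤ C := (norm_nonneg _).trans (h 0 (by simp))
  change ‖(toA F hF : C(KK, ℂ))‖ ≤ C
  rw [ContinuousMap.norm_le _ hC]
  intro z
  exact h z z.2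

section
variable (I : Ideal PA) [IsClosed (I : Set PA)]

open Classical in
/-- the quotient representation -/
noncomputable def quotRep : Rep (PA ⧸ I) where
  U F := if h : BA F then Ideal.Quotient.mk I (toA F h) else 0
  const c := by
    rw [dif_pos (BA.const c)]
    have : toA (fun _ => c) (BA.const c) = algebraMap ℂ PA c := by
      apply Subtype.ext
      ext z
      rfl
    rw [this]; rfl
  add F G hF hG := by
    rw [dif_pos hF, dif_pos hG, dif_pos (hF.add hG), ← map_add]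
    congr 1
  mul F G hF hG := by
    rw [dif_pos hF, dif_pos hG, dif_pos (hF.mul hG), ← map_mul]
    congr 1
  bd F hF C h := by
    rw [dif_pos hF]
    exact (Ideal.Quotient.norm_mk_le I _).trans (norm_toA_le hF h)

lemma quotRep_U {F : E → ℂ} (hF : BA F) : (quotRep I).U F = Ideal.Quotient.mk I (toA F hF) := dif_pos hF

end

section
variable {B : Type*} [NormedCommRing B] [NormedAlgebra ℂ B] [CompleteSpace B]
variable {ρ : Rep B} {f : E → ℂ}

lemma pow_bd {t : ℝ} (ht : 0 ≤ t) (ht1 : t ≤ 1) (n : ℕ) : (n + 1) * (t ^ n * (1 - t)) ≤ 1 := by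
  have h1 : ∀ n : ℕ, (n + 1) * (t ^ n * (1 - t)) ≤ 1 - t ^ (n + 1) := by
    intro n
    induction n with
    | zero => simp
    | succ n ih =>
      push_cast
      have h2 : 0 ≤ t ^ n := by positivity
      have h3 : t ^ (n+1) = t ^ n * t := pow_succ _ _
      have h4 : t ^ (n+2) = t ^ n * t * t := by ring
      have h5 : (n:ℝ) * (t ^ n * (1 - t)) * t ≤ (n:ℝ) * (t ^ n * (1 - t)) * 1 := by
        apply mul_le_mul_of_nonneg_left ht1
        have : 0 ≤ 1 - t := by linarith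
        positivity
      have h6 : (n + 1 + 1) * (t ^ (n+1) * (1 - t)) = t * ((n + 1) * (t ^ n * (1 - t))) + t ^ (n+1) * (1 - t) := by ring
      rw [h6]
      have h7 : t * ((n + 1) * (t ^ n * (1 - t))) ≤ t * (1 - t ^ (n+1)) := mul_le_mul_of_nonneg_left ih ht
      have h8 : t * (1 - t ^ (n+1)) + t ^ (n+1) * (1 - t) ≤ 1 - t ^ (n + 1 + 1) := by
        have h9 : t ^ (n + 1 + 1) = t * t ^ (n+1) := by ring
        rw [h9]
        have h10 : t ^ (n+1) ≤ 1 := pow_le_one₀ ht ht1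
        nlinarith
      linarith
  have := h1 n
  have h2 : 0 ≤ t ^ (n+1) := by positivity
  linarith

theorem Good.final (h : Good ρ f) (hQ : QQ ρ = 0) {F : E → ℂ} (hF : BA F) : ρ.U F = algebraMap ℂ B (F e0) := by
  have hZ0 : ρ.U (fun z => z 0) = 1 := by
    have h1 : ρ.U (aff (-1) 1) = 0 := by
      have h2 : QQ ρ * ρ.U (aff (1/2) (1/2)) = ρ.U (aff (-1) 1) := by
        rw [QQ, mul_assoc, Ring.inverse_mul_cancel _ h.isUnit_G, mul_one]
      rw [← h2, hQ, zero_mul]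
    rw [U_aff] at h1
    have : ρ.U (fun z => z 0) = ((-1:ℂ) • (1:B) + (1:ℂ) • ρ.U (fun z => z 0)) + 1 := by module
    rw [this, h1, zero_add]
  have hZ1 : ρ.U (fun z => z 1) = 0 := by
    have h1 : ∀ n : ℕ, ‖ρ.U (fun z => z 1)‖ ^ 2 ≤ 1 / (n + 1) := by
      intro n
      have h2 : ρ.U (fun z => z 1) = ρ.U (fun z => z 0 ^ n * z 1) := by
        rw [ρ.mul _ _ ((BA.coord 0).pow n) (BA.coord 1), ρ.pow (BA.coord 0), hZ0, one_pow, one_mul]
      have h3 : ‖ρ.U (fun z => z 0 ^ n * z 1)‖ ≤ √(1 / (n + 1)) := by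
        apply ρ.bd _ (((BA.coord 0).pow n).mul (BA.coord 1))
        intro z hz
        apply Real.le_sqrt_of_sq_le
        have h4 := coord_sq hz
        rw [norm_mul, norm_pow, mul_pow, ← pow_mul, mul_comm n 2, pow_mul, le_div_iff₀ (by positivity)]
        have h5 := pow_bd (t := ‖z 0‖ ^ 2) (by positivity) (by nlinarith [sq_nonneg ‖z 1‖]) n
        have h6 : (‖z 0‖ ^ 2) ^ n * ‖z 1‖ ^ 2 ≤ (‖z 0‖ ^ 2) ^ n * (1 - ‖z 0‖ ^ 2) := by
          apply mul_le_mul_of_nonneg_left _ (by positivity)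
          linarith
        nlinarith
      rw [h2]
      calc ‖ρ.U (fun z => z 0 ^ n * z 1)‖ ^ 2 ≤ (√(1 / (n + 1))) ^ 2 := by gcongr
        _ = _ := Real.sq_sqrt (by positivity)
    have h2 : ‖ρ.U (fun z => z 1)‖ ^ 2 ≤ 0 :=
      ge_of_tendsto' tendsto_one_div_add_atTop_nhds_zero_nat h1
    have h3 : ‖ρ.U (fun z => z 1)‖ = 0 := by nlinarith [norm_nonneg (ρ.U (fun z => z 1))]
    exact norm_eq_zero.1 h3
  have hZ : ∀ i, ρ.U (fun z => z i) = algebraMap ℂ B (e0 i) := by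
    intro i
    fin_cases i
    · simp [hZ0, e0]
    · simp [hZ1, e0]
  have hpoly : ∀ P : MvPolynomial (Fin 2) ℂ, ρ.U (fun z => MvPolynomial.eval (fun i => z i) P) =
      algebraMap ℂ B (MvPolynomial.eval (fun i => e0 i) P) := by
    intro P
    rw [ρ.poly]
    simp only [hZ]
    exact MvPolynomial.aeval_algebraMap_apply B (fun i => e0 i) P
  have h6 : ∀ δ > (0:ℝ), ‖ρ.U F - algebraMap ℂ B (F e0)‖ ≤ 2 * δ := by
    intro δ hδ
    obtain ⟨P, hP⟩ := dens F hF.1 hF.2 hδ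
    have h7 : ‖ρ.U (fun z => F z - MvPolynomial.eval (fun i => z i) P)‖ ≤ δ :=
      ρ.bd _ (hF.sub (BA.poly P)) δ hP
    rw [ρ.sub hF (BA.poly P), hpoly] at h7
    have h9 := hP e0 e0_mem
    have h10 : ‖algebraMap ℂ B (F e0 - MvPolynomial.eval (fun i => e0 i) P)‖ ≤ δ := by
      rw [← ρ.const]
      exact ρ.bd _ (BA.const _) δ (fun z _ => h9)
    calc ‖ρ.U F - algebraMap ℂ B (F e0)‖ = ‖(ρ.U F - algebraMap ℂ B (MvPolynomial.eval (fun i => e0 i) P)) -
          algebraMap ℂ B (F e0 - MvPolynomial.eval (fun i => e0 i) P)‖ := by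
          congr 1; rw [map_sub]; ring
      _ ≤ δ + δ := (norm_sub_le _ _).trans (add_le_add h7 h10)
      _ = _ := by ring
  have h11 : ‖ρ.U F - algebraMap ℂ B (F e0)‖ ≤ 0 := by
    apply le_of_forall_pos_le_add
    intro ε hε
    have := h6 (ε / 2) (by positivity)
    linarith
  exact sub_eq_zero.1 (norm_le_zero_iff.1 h11)

end

theorem main (f : E → ℂ) (hf : BA f) (hz : ∀ z ∈ closedBall (0:E) 1, f z = 0 ↔ z = e0)
    (hft : Tendsto (fun z => Real.log ‖f z‖ * (1 - ‖z‖)) (𝓝[ball (0:E) 1] e0) (𝓝 0))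
    (h : E → ℂ) (hh : BA h) (hh0 : h e0 = 0) (ε : ℝ) (hε : 0 < ε) :
    ∃ g : E → ℂ, ContinuousOn g (closedBall 0 1) ∧ DifferentiableOn ℂ g (ball 0 1) ∧
      ∀ z ∈ closedBall (0:E) 1, ‖h z - g z * f z‖ < ε := by
  set I : Ideal PA := (Ideal.span {toA f hf}).closure with hI
  have hIc : IsClosed (I : Set PA) := by
    rw [hI, Ideal.coe_closure]; exact isClosed_closure
  have hgood : Good (quotRep I) f := by
    refine ⟨hf, ?_, fun z hz1 hz2 => (hz z hz1).1 hz2⟩
    rw [quotRep_U I hf, Ideal.Quotient.eq_zero_iff_mem, hI]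
    apply subset_closure
    exact Ideal.subset_span rfl
  have hne : ∀ z ∈ ball (0:E) 1, f z ≠ 0 := by
    intro z hz1 hz2
    have := (hz z (ball_subset_closedBall hz1)).1 hz2
    rw [this] at hz1
    simp [e0] at hz1
  have hQ := hgood.Q_zero hne hft
  have hU := hgood.final hQ hh
  rw [hh0, map_zero, quotRep_U I hh, Ideal.Quotient.eq_zero_iff_mem] at hU
  have hU' : toA h hh ∈ closure ((Ideal.span {toA f hf} : Ideal PA) : Set PA) := hU
  rw [Metric.mem_closure_iff] at hU'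
  obtain ⟨x, hx, hx2⟩ := hU' (ε / 2) (half_pos hε)
  obtain ⟨b, hb⟩ := Ideal.mem_span_singleton'.1 hx
  obtain ⟨Mf, hMf⟩ := (isCompact_closedBall (0:E) 1).exists_bound_of_continuousOn hf.1
  have hMf0 : 0 ≤ Mf := (norm_nonneg _).trans (hMf 0 (by simp))
  have hbm : (b : C(KK, ℂ)) ∈ closure ((MvPolynomial.aeval (R := ℂ) co).range : Set C(KK, ℂ)) := b.2
  rw [Metric.mem_closure_iff] at hbm
  obtain ⟨_, ⟨P, rfl⟩, hP⟩ := hbm (ε / (2 * (Mf + 1))) (by positivity)
  refine ⟨fun z => MvPolynomial.eval (fun i => z i) P, (BA.poly P).1, (BA.poly P).2, fun z hz1 => ?_⟩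
  have h1 : ‖h z - (b : C(KK, ℂ)) ⟨z, hz1⟩ * f z‖ < ε / 2 := by
    rw [← hb, dist_eq_norm] at hx2
    have h2 : ‖((toA h hh - b * toA f hf : PA) : C(KK, ℂ)) ⟨z, hz1⟩‖ ≤ ‖toA h hh - b * toA f hf‖ :=
      ContinuousMap.norm_coe_le_norm _ _
    exact lt_of_le_of_lt h2 hx2
  have h3 : ‖(b : C(KK, ℂ)) ⟨z, hz1⟩ - MvPolynomial.eval (fun i => z i) P‖ < ε / (2 * (Mf + 1)) := by
    rw [dist_eq_norm] at hP
    have h2 := ContinuousMap.norm_coe_le_norm ((b : C(KK, ℂ)) - MvPolynomial.aeval (R := ℂ) co P) ⟨z, hz1⟩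
    rw [ContinuousMap.sub_apply, aeval_co] at h2
    exact lt_of_le_of_lt h2 hP
  calc ‖h z - MvPolynomial.eval (fun i => z i) P * f z‖ =
      ‖(h z - (b : C(KK, ℂ)) ⟨z, hz1⟩ * f z) + ((b : C(KK, ℂ)) ⟨z, hz1⟩ - MvPolynomial.eval (fun i => z i) P) * f z‖ := by
        congr 1; ring
    _ ≤ ‖h z - (b : C(KK, ℂ)) ⟨z, hz1⟩ * f z‖ + ‖((b : C(KK, ℂ)) ⟨z, hz1⟩ - MvPolynomial.eval (fun i => z i) P) * f z‖ :=
        norm_add_le _ _
    _ < ε / 2 + ε / 2 := by
        apply add_lt_add_of_lt_of_le h1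
        rw [norm_mul]
        calc _ ≤ ε / (2 * (Mf + 1)) * (Mf + 1) := by
              apply mul_le_mul h3.le ((hMf z hz1).trans (by linarith)) (norm_nonneg _) (by positivity)
          _ = ε / 2 := by field_simp
    _ = ε := by ring

end Pool.Agent.Helper233.CI
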