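import Pool.Agent.Helper233.CI.Avg
import Pool.Agent.Helper233.CI.Dens
set_option autoImplicit false
set_option linter.unusedSectionVars false
open Metric Set Filter Topology Complex
namespace Pool.Agent.Helper233.CI

/-- ball algebra functions -/
def BA (F : E → ℂ) : Prop := ContinuousOn F (closedBall 0 1) ∧ DifferentiableOn ℂ F (ball 0 1)

lemma BA.const (c : ℂ) : BA (fun _ => c) := ⟨continuousOn_const, differentiableOn_const c⟩

lemma BA.add {F G : E → ℂ} (hF : BA F) (hG : BA G) : BA (fun z => F z + G z) :=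
  ⟨hF.1.add hG.1, hF.2.add hG.2⟩

lemma BA.sub {F G : E → ℂ} (hF : BA F) (hG : BA G) : BA (fun z => F z - G z) :=
  ⟨hF.1.sub hG.1, hF.2.sub hG.2⟩

lemma BA.mul {F G : E → ℂ} (hF : BA F) (hG : BA G) : BA (fun z => F z * G z) :=
  ⟨hF.1.mul hG.1, hF.2.mul hG.2⟩

lemma BA.pow {F : E → ℂ} (hF : BA F) (n : ℕ) : BA (fun z => F z ^ n) :=
  ⟨hF.1.pow n, hF.2.pow n⟩

lemma BA.inv {F : E → ℂ} (hF : BA F) (h0 : ∀ z ∈ closedBall (0:E) 1, F z ≠ 0) : BA (fun z => (F z)⁻¹) :=
  ⟨hF.1.inv₀ h0, hF.2.inv (fun z hz => h0 z (ball_subset_closedBall hz))⟩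

lemma BA.of_diff {F : E → ℂ} (hF : Differentiable ℂ F) : BA F :=
  ⟨hF.continuous.continuousOn, hF.differentiableOn⟩

lemma diff_coord (i : Fin 2) : Differentiable ℂ (fun z : E => z i) := by fun_prop

lemma BA.coord (i : Fin 2) : BA (fun z => z i) := BA.of_diff (diff_coord i)

lemma BA.poly (P : MvPolynomial (Fin 2) ℂ) : BA (fun z => MvPolynomial.eval (fun i => z i) P) := by
  induction P using MvPolynomial.induction_on with
  | C a => simpa using BA.const a
  | add p q hp hq => simpa using hp.add hq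
  | mul_X p i hp => simpa using hp.mul (BA.coord i)

/-- contractive representation of the ball algebra -/
structure Rep (B : Type*) [NormedCommRing B] [NormedAlgebra ℂ B] where
  U : (E → ℂ) → B
  const : ∀ c : ℂ, U (fun _ => c) = algebraMap ℂ B c
  add : ∀ F G, BA F → BA G → U (fun z => F z + G z) = U F + U G
  mul : ∀ F G, BA F → BA G → U (fun z => F z * G z) = U F * U G
  bd : ∀ F, BA F → ∀ C, (∀ z ∈ closedBall (0:E) 1, ‖F z‖ ≤ C) → ‖U F‖ ≤ C

/-- the base point -/
noncomputable abbrev e0 : E := EuclideanSpace.single 0 1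

lemma e0_mem : e0 ∈ closedBall (0:E) 1 := by simp [e0]

section
variable {B : Type*} [NormedCommRing B] [NormedAlgebra ℂ B] [CompleteSpace B] (ρ : Rep B)

namespace Rep

lemma one : ρ.U (fun _ => 1) = 1 := by rw [ρ.const]; simp

lemma smul {F : E → ℂ} (hF : BA F) (c : ℂ) : ρ.U (fun z => c * F z) = c • ρ.U F := by
  rw [ρ.mul _ _ (BA.const c) hF, ρ.const, Algebra.smul_def]

lemma sub {F G : E → ℂ} (hF : BA F) (hG : BA G) : ρ.U (fun z => F z - G z) = ρ.U F - ρ.U G := by
  have h := ρ.add _ _ (hF.sub hG) hG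
  simp only [sub_add_cancel] at h
  rw [eq_sub_iff_add_eq, ← h]

lemma congr {F G : E → ℂ} (hF : BA F) (hG : BA G) (h : ∀ z ∈ closedBall (0:E) 1, F z = G z) :
    ρ.U F = ρ.U G := by
  have h1 := ρ.bd _ (hF.sub hG) 0 (fun z hz => by rw [h z hz]; simp)
  rw [ρ.sub hF hG] at h1
  exact sub_eq_zero.1 (norm_le_zero_iff.1 h1)

lemma pow {F : E → ℂ} (hF : BA F) (n : ℕ) : ρ.U (fun z => F z ^ n) = ρ.U F ^ n := by
  induction n with
  | zero => simp only [pow_zero]; exact ρ.one
  | succ n ih => simp only [pow_succ]; rw [ρ.mul _ _ (hF.pow n) hF, ih]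

lemma norm_one_le (ρ : Rep B) : ‖(1:B)‖ ≤ 1 := by
  rw [← ρ.one]; exact ρ.bd _ (BA.const 1) 1 (by simp)

lemma poly (P : MvPolynomial (Fin 2) ℂ) :
    ρ.U (fun z => MvPolynomial.eval (fun i => z i) P) = MvPolynomial.aeval (fun i => ρ.U (fun z => z i)) P := by
  induction P using MvPolynomial.induction_on with
  | C a => simp [ρ.const]
  | add p q hp hq =>
    simp only [map_add]
    rw [ρ.add _ _ (BA.poly p) (BA.poly q), hp, hq]
  | mul_X p i hp =>
    simp only [map_mul, MvPolynomial.eval_X, MvPolynomial.aeval_X]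
    rw [ρ.mul _ _ (BA.poly p) (BA.coord i), hp]

lemma char_norm (χ : WeakDual.characterSpace ℂ B) (b : B) : ‖χ b‖ ≤ ‖b‖ * ‖(1:B)‖ :=
  AlgHom.norm_apply_le_self_mul_norm_one χ b

lemma char_norm' (ρ : Rep B) (χ : WeakDual.characterSpace ℂ B) (b : B) : ‖χ b‖ ≤ ‖b‖ := by
  have h1 := char_norm χ b
  have h2 := ρ.norm_one_le
  nlinarith [norm_nonneg b]

/-- characters are evaluations at the base point -/
theorem char_eq {f : E → ℂ} (hf : BA f) (hU : ρ.U f = 0)
    (hz : ∀ z ∈ closedBall (0:E) 1, f z = 0 → z = e0) (χ : WeakDual.characterSpace ℂ B) {F : E → ℂ} (hF : BA F) :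
    χ (ρ.U F) = F e0 := by
  have hadd : ∀ a b : B, χ (a + b) = χ a + χ b := map_add χ
  have hmul : ∀ a b : B, χ (a * b) = χ a * χ b := map_mul χ
  have halg : ∀ c : ℂ, χ (algebraMap ℂ B c) = c := fun c => AlgHomClass.commutes χ c
  set p : E := WithLp.toLp 2 (fun i => χ (ρ.U (fun z => z i))) with hp
  have hpi : ∀ i, p i = χ (ρ.U (fun z => z i)) := fun i => rfl
  have hpoly : ∀ P : MvPolynomial (Fin 2) ℂ, χ (ρ.U (fun z => MvPolynomial.eval (fun i => z i) P)) =
      MvPolynomial.eval (fun i => p i) P := by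
    intro P
    induction P using MvPolynomial.induction_on with
    | C a => simp only [MvPolynomial.eval_C]; rw [ρ.const, halg]
    | add p q hp hq =>
      simp only [map_add]
      rw [ρ.add _ _ (BA.poly p) (BA.poly q), hadd, hp, hq]
    | mul_X p i hp =>
      simp only [map_mul, MvPolynomial.eval_X]
      rw [ρ.mul _ _ (BA.poly p) (BA.coord i), hmul, hp, hpi]
  have hpn : p ∈ closedBall (0:E) 1 := by
    rw [mem_closedBall_zero_iff]
    have hL : BA (fun z : E => inner ℂ p z) := BA.of_diff (innerSL ℂ p).differentiable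
    have h1 : ‖ρ.U (fun z : E => inner ℂ p z)‖ ≤ ‖p‖ := by
      apply ρ.bd _ hL
      intro z hz
      rw [mem_closedBall_zero_iff] at hz
      refine (norm_inner_le_norm p z).trans ?_
      nlinarith [norm_nonneg p]
    have h2 : (fun z : E => inner ℂ p z) = fun z : E => z 0 * (starRingEnd ℂ) (p 0) + z 1 * (starRingEnd ℂ) (p 1) := by
      funext z
      rw [PiLp.inner_apply, Fin.sum_univ_two]
      simp
    have h3 : χ (ρ.U (fun z : E => inner ℂ p z)) = ((‖p‖ ^ 2 : ℝ) : ℂ) := by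
      rw [h2, ρ.add _ _ ((BA.coord 0).mul (BA.const _)) ((BA.coord 1).mul (BA.const _)),
        ρ.mul _ _ (BA.coord 0) (BA.const _), ρ.mul _ _ (BA.coord 1) (BA.const _), ρ.const, ρ.const, hadd, hmul, hmul,
        halg, halg, ← hpi, ← hpi, EuclideanSpace.norm_sq_eq, Fin.sum_univ_two, Complex.mul_conj, Complex.mul_conj,
        Complex.normSq_eq_norm_sq, Complex.normSq_eq_norm_sq]
      push_cast; rfl
    have h4 := ρ.char_norm' χ (ρ.U (fun z : E => inner ℂ p z))
    rw [h3, Complex.norm_real, Real.norm_of_nonneg (by positivity)] at h4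
    have h5 : ‖p‖ ^ 2 ≤ ‖p‖ := h4.trans h1
    by_contra h6
    push Not at h6
    nlinarith
  have hgen : ∀ G : E → ℂ, BA G → χ (ρ.U G) = G p := by
    intro G hG
    have h6 : ∀ δ > (0:ℝ), ‖χ (ρ.U G) - G p‖ ≤ 2 * δ := by
      intro δ hδ
      obtain ⟨P, hP⟩ := dens G hG.1 hG.2 hδ
      have h7 : ‖ρ.U (fun z => G z - MvPolynomial.eval (fun i => z i) P)‖ ≤ δ :=
        ρ.bd _ (hG.sub (BA.poly P)) δ hP
      have h8 := (ρ.char_norm' χ _).trans h7
      rw [ρ.sub hG (BA.poly P), map_sub, hpoly] at h8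
      have h9 := hP p hpn
      calc ‖χ (ρ.U G) - G p‖ = ‖(χ (ρ.U G) - MvPolynomial.eval (fun i => p i) P) - (G p - MvPolynomial.eval (fun i => p i) P)‖ := by
            congr 1; ring
        _ ≤ δ + δ := (norm_sub_le _ _).trans (add_le_add h8 h9)
        _ = _ := by ring
    have h10 : ‖χ (ρ.U G) - G p‖ ≤ 0 := by
      apply le_of_forall_pos_le_add
      intro ε hε
      have := h6 (ε / 2) (by positivity)
      linarith
    exact sub_eq_zero.1 (norm_le_zero_iff.1 h10)
  have hpe : p = e0 := by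
    apply hz p hpn
    rw [← hgen f hf, hU]
    exact map_zero χ
  rw [hgen F hF, hpe]

theorem isUnit_of {f : E → ℂ} (hf : BA f) (hU : ρ.U f = 0)
    (hz : ∀ z ∈ closedBall (0:E) 1, f z = 0 → z = e0) {F : E → ℂ} (hF : BA F) (h : F e0 ≠ 0) :
    IsUnit (ρ.U F) := by
  by_contra hn
  obtain ⟨χ, hχ⟩ := WeakDual.CharacterSpace.exists_apply_eq_zero hn
  rw [ρ.char_eq hf hU hz χ hF] at hχ
  exact h hχ

end Rep

end

end Pool.Agent.Helper233.CI
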